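import Pool.Agent.MP_2d33ec_an.AP.Sys
import Pool.Agent.MP_2d33ec_an.Entropy

/-!
A continuous function that takes equal values at the ends of every curve of points that are
standard outside a finite window is constant.
-/

namespace Pool.Agent.MP_2d33ec_an.AP

open Finset Function

/-- `F` does not distinguish the ends of curves. -/
def CurC (F : (ℕ → ℤ → ℝ) → ℝ) : Prop :=
  ∀ (r : ℕ) (γ : ℝ → ℕ → ℤ → ℝ), Continuous γ → (∀ t, 0 ≤ t → t ≤ 1 → γ t ∈ XA) →
    (∀ t k n, (r : ℤ) < |n| → γ t k n = ee k n) → F (γ 0) = F (γ 1)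

/-- The same for one-coordinate segments in one row. -/
def SegR (k : ℕ) (G : (ℤ → ℝ) → ℝ) : Prop :=
  ∀ (r : ℕ) (z : ℤ → ℝ) (j : ℤ) (u v : ℝ), (∀ n, (r : ℤ) < |n| → z n = ee k n) → |j| ≤ r →
    u ≤ v → (∀ t, u ≤ t → t ≤ v → update z j t ∈ XX ∧ Cnd k (update z j t)) →
    G (update z j u) = G (update z j v)

variable {k r : ℕ} {G : (ℤ → ℝ) → ℝ} {z : ℤ → ℝ}

theorem Cnd.of {y : ℤ → ℝ} (h : Cnd k z) (h0 : ∀ n, z n = 0 → y n = 0)
    (h1 : ∀ n, z n = 1 → y n = 1) : Cnd k y := fun n =>
  ⟨(h n).1.imp fun _ hi => ⟨hi.1, h0 _ hi.2⟩, (h n).2.imp fun _ hi => ⟨hi.1, h1 _ hi.2⟩⟩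

open Classical in
theorem row_bin (hG : SegR k G) (hz : z ∈ XX) (hc : Cnd k z)
    (hr : ∀ n, (r : ℤ) < |n| → z n = ee k n) :
    G z = G fun n => if z n = 0 ∨ z n = 1 then z n else 0 := by
  let fr : (ℤ → ℝ) → ℤ → ℝ := fun y n => if z n = 0 ∨ z n = 1 then z n else y n
  have h1 : SegConst fun y => G (fr y) := by
    intro r' y j u v _ _ huv hseg
    by_cases hj : z j = 0 ∨ z j = 1
    · have : ∀ t, fr (update y j t) = fr y := fun t => by
        ext n
        by_cases hn : n = j
        · subst hn; simp [fr, hj]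
        · simp [fr, update_of_ne hn]
      simp only [this]
    · have e : ∀ t, fr (update y j t) = update (fr y) j t := fun t => by
        ext n
        by_cases hn : n = j
        · subst hn; simp only [fr, if_neg hj, update_self]
        · simp [fr, update_of_ne hn]
      simp only [e]
      refine hG r _ j u v (fun n hn => ?_) ?_ huv fun t h1 h2 => ?_
      · simp only [fr]
        rw [if_pos (hr n hn ▸ ee01 k n), hr n hn]
      · by_contra hcon
        exact hj (hr j (not_le.1 hcon) ▸ ee01 k j)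
      · rw [← e]
        refine ⟨mem_XX_of (hseg t h1 h2) fun n => ?_, hc.of (fun n hn => ?_) fun n hn => ?_⟩
        · simp only [fr]
          split_ifs with h
          · exact Or.inr h
          · exact Or.inl rfl
        · simp [fr, hn]
        · simp [fr, hn]
  have h2 := descend h1 r (2 * r) (fun n => if z n = 0 ∨ z n = 1 then 0 else z n)
    (mem_XX_of hz fun n => by split_ifs <;> simp)
    (fun n hn => if_pos (hr n hn ▸ ee01 k n)) fun m hm => Or.inl (by have := lt_kk m; omega)
  have e : (fr fun n => if z n = 0 ∨ z n = 1 then 0 else z n) = z := by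
    ext n
    simp only [fr]
    split_ifs <;> rfl
  simp only [e] at h2
  exact h2

theorem other {a b : ℝ} (ha : a = 0 ∨ a = 1) (hb : b = 0 ∨ b = 1) (h : a ≠ b) : a = 1 - b := by
  rcases ha with rfl | rfl <;> rcases hb with rfl | rfl <;> simp at h ⊢

theorem cnd_flip (hc : Cnd k z) {j : ℤ}
    (h : ∀ (n : ℤ) (i : ℕ), i < 2 * ell k → n + i * ss k = j →
      ∃ i' < 2 * ell k, i' ≠ i ∧ z (n + i' * ss k) = z j) (t : ℝ) : Cnd k (update z j t) := by
  have key : ∀ (n : ℤ) (c : ℝ), (∃ i < 2 * ell k, z (n + i * ss k) = c) →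
      ∃ i < 2 * ell k, update z j t (n + i * ss k) = c := by
    rintro n c ⟨i, hi, hic⟩
    by_cases h1 : n + i * ss k = j
    · obtain ⟨i', h2, h3, h4⟩ := h n i hi h1
      refine ⟨i', h2, ?_⟩
      rw [update_of_ne, h4, ← h1, hic]
      rw [← h1]
      simpa [(ss_pos k).ne'] using h3
    · exact ⟨i, hi, by rwa [update_of_ne h1]⟩
  exact fun n => ⟨key n 0 (hc n).1, key n 1 (hc n).2⟩

theorem flip (hG : SegR k G) (h01 : ∀ n, z n = 0 ∨ z n = 1)
    (hr : ∀ n, (r : ℤ) < |n| → z n = ee k n) {j : ℤ} (hj : |j| ≤ r)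
    (hc : ∀ t, Cnd k (update z j t)) : G z = G (update z j (1 - z j)) := by
  have h1 := hG r z j 0 1 hr hj zero_le_one fun t h0 h1 => ⟨⟨fun n => ?_, fun m s => ?_⟩, hc t⟩
  · rcases h01 j with h | h
    · rw [h, sub_zero, ← h1, ← h, update_eq_self]
    · rw [h, sub_self, h1, ← h, update_eq_self]
  · by_cases hn : n = j
    · subst hn; simp [h0, h1]
    · rw [update_of_ne hn]
      rcases h01 n with h | h <;> simp [h]
  · refine (cnt_le_card {j} fun i n hn => ?_).trans (by have := lt_kk m; simp; omega)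
    by_contra hcon
    rw [update_of_ne (by simpa using hcon)] at hn
    rcases h01 n with h | h <;> rw [h] at hn
    · exact not_inU_zero m i hn
    · exact not_inU_one m i hn

theorem upd01 (h01 : ∀ n, z n = 0 ∨ z n = 1) (j n : ℤ) :
    update z j (1 - z j) n = 0 ∨ update z j (1 - z j) n = 1 := by
  by_cases hn : n = j
  · subst hn
    rcases h01 n with h | h <;> simp [h]
  · rw [update_of_ne hn]
    exact h01 n

theorem bin_conn (hG : SegR k G) (r d : ℕ) (hd : d ≤ 2 * r + 1) : ∀ z : ℤ → ℝ,
    (∀ n, z n = 0 ∨ z n = 1) → Cnd k z → (∀ n : ℤ, n < -r ∨ d ≤ n + r → z n = ee k n) →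
    G z = G (ee k) := by
  have hs : (0 : ℤ) < ss k := by exact_mod_cast ss_pos k
  have hl := ell_ge k
  induction d with
  | zero =>
    intro z _ _ h
    rw [funext fun n => h n (by omega)]
  | succ d ih =>
    have hr : ∀ z : ℤ → ℝ, (∀ n : ℤ, n < -r ∨ (d + 1 : ℕ) ≤ n + r → z n = ee k n) →
        ∀ n, (r : ℤ) < |n| → z n = ee k n := fun z h n hn => h n (by rw [lt_abs] at hn; omega)
    set j : ℤ := d - r with hj
    have last : ∀ z : ℤ → ℝ, (∀ n, z n = 0 ∨ z n = 1) → Cnd k z →
        (∀ n : ℤ, n < -r ∨ (d + 1 : ℕ) ≤ n + r → z n = ee k n) → z j = 1 - ee k j →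
        (∃ c : ℕ, 0 < c ∧ c ≤ 3 ∧ z (j - c * ss k) = z j) → G z = G (ee k) := by
      rintro z h01 hc h h1 ⟨c, c0, c3, h2⟩
      have h3 := cnd_flip hc (j := j) fun n i hi hn => by
        by_cases h4 : i + 1 < 2 * ell k
        · refine ⟨i + 1, h4, by omega, ?_⟩
          rw [show n + (i + 1 : ℕ) * ss k = j + ss k by rw [← hn]; push_cast; ring,
            h _ (by omega), ee_add, h1]
        · refine ⟨i - c, by omega, by omega, ?_⟩
          rw [← h2, ← hn, Nat.cast_sub (by omega)]
          congr 1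
          ring
      rw [flip hG h01 (hr z h) (j := j) (by rw [abs_le]; omega) h3]
      refine ih (by omega) _ (upd01 h01 j) (h3 _) fun n hn => ?_
      by_cases h4 : n = j
      · rw [h4, update_self, h1, sub_sub_cancel]
      · rw [update_of_ne h4]
        exact h n (by omega)
    intro z h01 hc h
    by_cases h1 : z j = ee k j
    · refine ih (by omega) z h01 hc fun n hn => ?_
      by_cases h4 : n = j
      · rw [h4, h1]
      · exact h n (by omega)
    have h2 : z j = 1 - ee k j := other (h01 j) (ee01 k j) h1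
    by_cases h3 : ∃ c : ℕ, 0 < c ∧ c ≤ 3 ∧ z (j - c * ss k) = z j
    · exact last z h01 hc h h2 h3
    push Not at h3
    have h4 : ∀ c : ℕ, 0 < c → c ≤ 3 → z (j - c * ss k) = 1 - z j := fun c c0 c3 =>
      other (h01 _) (h01 j) (h3 c c0 c3)
    have a1 := h4 1 (by omega) (by omega)
    have a2 := h4 2 (by omega) (by omega)
    have a3 := h4 3 (by omega) (by omega)
    push_cast at a1 a2 a3
    set q := j - 2 * ss k with hq
    have hq0 : -(r : ℤ) ≤ q := by
      by_contra hcon
      rw [h _ (by omega)] at a2 a3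
      have h5 := ee_add k (j - 3 * ss k)
      rw [show j - 3 * ss k + ss k = q by omega, a2, a3] at h5
      rcases h01 j with h6 | h6 <;> rw [h6] at h5 <;> norm_num at h5
    have h5 := cnd_flip hc (j := q) fun n i hi hn => by
      by_cases h4 : i + 1 < 2 * ell k
      · refine ⟨i + 1, h4, by omega, ?_⟩
        rw [a2, ← a1]
        congr 1
        push_cast
        linarith
      · refine ⟨i - 1, by omega, by omega, ?_⟩
        rw [a2, ← a3, Nat.cast_sub (by omega)]
        congr 1
        push_cast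
        linarith
    rw [flip hG h01 (hr z h) (j := q) (by rw [abs_le]; omega) h5]
    refine last _ (upd01 h01 q) (h5 _) (fun n hn => ?_) ?_ ⟨2, two_pos, by omega, ?_⟩
    · rw [update_of_ne (by omega)]
      exact h n hn
    · rw [update_of_ne (by omega), h2]
    · push_cast
      rw [← hq, update_self, update_of_ne (by omega), a2, sub_sub_cancel]

theorem row_conn (hG : SegR k G) (hz : z ∈ XX) (hc : Cnd k z)
    (hr : ∀ n, (r : ℤ) < |n| → z n = ee k n) : G z = G (ee k) := by
  rw [row_bin hG hz hc hr]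
  refine bin_conn hG r _ le_rfl _ (fun n => ?_) (hc.of (fun n hn => ?_) fun n hn => ?_)
    fun n hn => ?_
  · split_ifs with h
    · exact h
    · exact Or.inl rfl
  · simp [hn]
  · simp [hn]
  · have := hr n (by rw [lt_abs]; omega)
    rw [if_pos (this ▸ ee01 k n), this]

theorem upd_mem {x : ℕ → ℤ → ℝ} (hx : x ∈ XA) (hz : z ∈ XX) (hc : Cnd k z) :
    update x k z ∈ XA := fun j => by
  by_cases h : j = k
  · subst h
    rw [update_self]
    exact ⟨hz, hc⟩
  · rw [update_of_ne h]
    exact hx j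

theorem all_conn {F : (ℕ → ℤ → ℝ) → ℝ} (hF : CurC F) (r K : ℕ) : ∀ x ∈ XA,
    (∀ k n, (r : ℤ) < |n| → x k n = ee k n) → (∀ k, K ≤ k → x k = ee k) → F x = F ee := by
  induction K with
  | zero =>
    intro x _ _ h
    rw [funext fun k => h k (Nat.zero_le k)]
  | succ K ih =>
    intro x hx hr h
    have h1 : SegR K fun z => F (update x K z) := by
      intro r' z j u v h1 h2 huv hseg
      have h3 := hF (max r r') (fun t => update x K (update z j (u + t * (v - u))))
        (continuous_const.update _ (continuous_const.update _ (by fun_prop)))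
        (fun t h0 h1 => by
          obtain ⟨h4, h5⟩ := hseg (u + t * (v - u)) (by nlinarith) (by nlinarith)
          exact upd_mem hx h4 h5)
        (fun t k n hn => by
          push_cast at hn
          rw [max_lt_iff] at hn
          by_cases hk : k = K
          · subst hk
            rw [update_self, update_of_ne (by rintro rfl; omega), h1 n hn.2]
          · rw [update_of_ne hk, hr k n hn.1])
      simpa using h3
    have h2 := row_conn h1 (hx K).1 (hx K).2 (hr K)
    simp only [update_eq_self] at h2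
    rw [h2]
    refine ih _ (upd_mem hx (ee_mem K).1 (ee_mem K).2) (fun k n hn => ?_) fun k hk => ?_
    · by_cases hk : k = K
      · rw [hk, update_self]
      · rw [update_of_ne hk, hr k n hn]
    · by_cases hk' : k = K
      · rw [hk', update_self]
      · rw [update_of_ne hk', h k (by omega)]

theorem trunc_row (hz : z ∈ XX) (hc : Cnd k z) (r : ℕ) : ∃ x ∈ XX, Cnd k x ∧
    (∀ n : ℤ, |n| ≤ r → x n = z n) ∧ ∀ n : ℤ, (r : ℤ) + 2 * ss k < |n| → x n = ee k n := by
  classical
  have hs : (0 : ℤ) < ss k := by exact_mod_cast ss_pos k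
  have hl := ell_ge k
  let y : ℤ → ℝ := fun n => if |n| ≤ r then z n else if z n = 1 then 1 else 0
  have y01 : ∀ n : ℤ, (r : ℤ) < |n| → y n = 0 ∨ y n = 1 := fun n hn => by
    simp only [y, if_neg (not_le.2 hn)]
    split_ifs <;> simp
  have y10 : ∀ n : ℤ, (r : ℤ) < |n| → 1 - y n = 0 ∨ 1 - y n = 1 := fun n hn => by
    rcases y01 n hn with h | h <;> simp [h]
  let x : ℤ → ℝ := fun n => if (r : ℤ) + 2 * ss k < |n| then ee k n
    else if n < -(r + ss k : ℤ) then 1 - y (n + ss k)
    else if (r : ℤ) + ss k < n then 1 - y (n - ss k) else y n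
  have x1 : ∀ n : ℤ, n < -(r + 2 * ss k : ℤ) ∨ (r : ℤ) + 2 * ss k < n → x n = ee k n :=
    fun n hn => if_pos (by rw [lt_abs]; omega)
  have x2 : ∀ n : ℤ, -(r + 2 * ss k : ℤ) ≤ n → n < -(r + ss k : ℤ) → x n = 1 - y (n + ss k) :=
    fun n h1 h2 => by
      simp only [x]
      rw [if_neg (by rw [not_lt, abs_le]; omega), if_pos h2]
  have x3 : ∀ n : ℤ, -(r + ss k : ℤ) ≤ n → n ≤ r + ss k → x n = y n := fun n h1 h2 => by
    simp only [x]
    rw [if_neg (by rw [not_lt, abs_le]; omega), if_neg (by omega), if_neg (by omega)]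
  have x4 : ∀ n : ℤ, (r : ℤ) + ss k < n → n ≤ r + 2 * ss k → x n = 1 - y (n - ss k) :=
    fun n h1 h2 => by
      simp only [x]
      rw [if_neg (by rw [not_lt, abs_le]; omega), if_neg (by omega), if_pos h1]
  have left : ∀ n : ℤ, -(r + 2 * ss k : ℤ) ≤ n → n < -(r + ss k : ℤ) →
      (x (n + ss k) = 0 ∨ x (n + ss k) = 1) ∧ x n = 1 - x (n + ss k) := fun n h1 h2 => by
    rw [x3 (n + ss k) (by omega) (by omega)]
    exact ⟨y01 _ (by rw [lt_abs]; omega), x2 n h1 h2⟩
  refine ⟨x, mem_XX_of hz fun n => ?_, fun n => ?_, fun n hn => ?_, fun n hn => if_pos hn⟩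
  · simp only [x]
    split_ifs with h1 h2 h3
    · exact Or.inr (ee01 k n)
    · exact Or.inr (y10 _ (by rw [lt_abs]; omega))
    · exact Or.inr (y10 _ (by rw [lt_abs]; omega))
    · by_cases h4 : |n| ≤ r
      · exact Or.inl (if_pos h4)
      · exact Or.inr (y01 n (not_le.1 h4))
  · by_cases c1 : n + ss k < -(r + 2 * ss k : ℤ)
    · refine two_vals (i := 0) (j := 1) (by omega) (by omega) ?_ ?_ <;>
        simp [x1 n (by omega), x1 (n + ss k) (Or.inl c1), ee01, ee_add]
    by_cases c2 : n < -(r + 2 * ss k : ℤ)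
    · have := left (n + ss k) (by omega) (by omega)
      rw [show n + ss k + ss k = n + (2 : ℕ) * ss k by push_cast; ring] at this
      exact two_vals (i := 2) (j := 1) (by omega) (by omega) this.1 (by simpa using this.2)
    by_cases c3 : n < -(r + ss k : ℤ)
    · have := left n (by omega) c3
      exact two_vals (i := 1) (j := 0) (by omega) (by omega) (by simpa using this.1)
        (by simpa using this.2)
    by_cases c4 : (r : ℤ) + ss k < n
    · have e : n + (2 : ℕ) * ss k = n + ss k + ss k := by push_cast; ring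
      refine two_vals (i := 1) (j := 2) (by omega) (by omega) ?_ ?_
      · simp [x1 (n + ss k) (by omega), ee01]
      · rw [e, x1 (n + ss k + ss k) (by omega), ee_add]
        simp [x1 (n + ss k) (by omega)]
    obtain ⟨i, hi⟩ := Int.eq_ofNat_of_zero_le
      (Int.ediv_nonneg (show 0 ≤ (r : ℤ) + ss k - n by omega) hs.le)
    have d1 := Int.emod_nonneg ((r : ℤ) + ss k - n) hs.ne'
    have d2 := Int.emod_lt_of_pos ((r : ℤ) + ss k - n) hs
    have d3 := Int.emod_add_ediv_mul ((r : ℤ) + ss k - n) (ss k)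
    rw [hi] at d3
    by_cases c5 : i + 1 < 2 * ell k
    · have e : n + (i + 1 : ℕ) * ss k = n + i * ss k + ss k := by push_cast; ring
      refine two_vals (i := i) (j := i + 1) (by omega) c5 ?_ ?_
      · rw [x3 _ (by omega) (by omega)]
        exact y01 _ (by rw [lt_abs]; omega)
      · rw [e, x4 _ (by omega) (by omega), add_sub_cancel_right, x3 _ (by omega) (by omega)]
    · have key : ∀ i' < 2 * ell k, x (n + i' * ss k) = y (n + i' * ss k) := fun i' h' => by
        have h1 : (i' : ℤ) * ss k ≤ i * ss k :=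
          mul_le_mul_of_nonneg_right (by omega) hs.le
        have h2 : (0 : ℤ) ≤ i' * ss k := by positivity
        exact x3 _ (by omega) (by omega)
      refine ⟨(hc n).1.imp fun i' h' => ⟨h'.1, ?_⟩, (hc n).2.imp fun i' h' => ⟨h'.1, ?_⟩⟩ <;>
        rw [key i' h'.1] <;> simp [y, h'.2]
  · rw [abs_le] at hn
    rw [x3 n (by omega) (by omega)]
    exact if_pos (abs_le.2 hn)

theorem const_of_curC {F : (ℕ → ℤ → ℝ) → ℝ} (hF : CurC F) (hc : ContinuousOn F XA)
    {x : ℕ → ℤ → ℝ} (hx : x ∈ XA) : F x = F ee := by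
  choose z z1 z2 z3 z4 using fun r k => trunc_row (hx k).1 (hx k).2 r
  let tr : ℕ → ℕ → ℤ → ℝ := fun r k => if k < r then z r k else ee k
  have h1 : ∀ r, tr r ∈ XA := fun r k => by
    simp only [tr]
    split_ifs
    · exact ⟨z1 r k, z2 r k⟩
    · exact ee_mem k
  have h2 : ∀ r, F (tr r) = F ee := fun r =>
    all_conn hF (r + 2 * ss r) r _ (h1 r) (fun k n hn => by
      simp only [tr]
      split_ifs with h
      · have := ss_mono h.le
        exact z4 r k n (by omega)
      · rfl) fun k hk => if_neg (not_lt.2 hk)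
  have h3 : Filter.Tendsto tr Filter.atTop (nhdsWithin x XA) := by
    refine tendsto_nhdsWithin_iff.2 ⟨tendsto_pi_nhds.2 fun k => tendsto_pi_nhds.2 fun n => ?_,
      Filter.Eventually.of_forall h1⟩
    refine tendsto_const_nhds.congr' ?_
    filter_upwards [Filter.eventually_ge_atTop (n.natAbs + k + 1)] with r hr
    simp only [tr]
    rw [if_pos (by omega), z3 r k n (by rw [Int.abs_eq_natAbs]; omega)]
  have h4 := (hc x hx).tendsto.comp h3
  have h5 : F ∘ tr = fun _ => F ee := funext h2
  rw [h5] at h4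
  exact tendsto_nhds_unique h4 tendsto_const_nhds

end Pool.Agent.MP_2d33ec_an.AP
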