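import Pool.Agent.MP_2d33ec_an.MdimZero

/-!
An economical open cover for finitely many coordinate functions.
-/

namespace Pool.Agent.MP_2d33ec_an.AP

open Finset

variable {X : Type} {ι : Type} (m : ℕ) (f : ι → X → ℝ) (dig : ι → ℕ)

/-- The members of the cover. -/
def cel (S : Finset ι) (c : ι → ℕ) : Set X :=
  {z | (∀ j ∈ S, ∀ j' ∉ S, hgt m (dig j') (f j' z) < hgt m (dig j) (f j z)) ∧
    (∀ j ∈ S, ((c j * LL m + dig j : ℕ) : ℝ) < f j z * bb (m + 1) ∧
      f j z * bb (m + 1) < ((c j * LL m + dig j : ℕ) : ℝ) + 1) ∧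
    (∀ j ∉ S, ((c j * LL m + dig j : ℕ) : ℝ) + 1 / 2 - LL m < f j z * bb (m + 1) ∧
      f j z * bb (m + 1) < ((c j * LL m + dig j : ℕ) : ℝ) + 1 / 2)}

variable {m f dig}

theorem isOpen_cel [TopologicalSpace X] [Fintype ι] (hc : ∀ j, Continuous (f j)) (S : Finset ι)
    (c : ι → ℕ) : IsOpen (cel m f dig S c) := by
  have hc' : ∀ j, Continuous fun z : X => f j z * bb (m + 1) := fun j =>
    (hc j).mul continuous_const
  simp only [cel, Set.ofPred_and, Set.ofPred_forall]
  refine IsOpen.inter ?_ (IsOpen.inter ?_ ?_)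
  · exact isOpen_iInter_of_finite fun j => isOpen_iInter_of_finite fun _ =>
      isOpen_iInter_of_finite fun j' => isOpen_iInter_of_finite fun _ =>
        isOpen_lt ((continuous_hgt _ _).comp (hc _)) ((continuous_hgt _ _).comp (hc _))
  · exact isOpen_iInter_of_finite fun j => isOpen_iInter_of_finite fun _ =>
      (isOpen_lt continuous_const (hc' _)).inter (isOpen_lt (hc' _) continuous_const)
  · exact isOpen_iInter_of_finite fun j => isOpen_iInter_of_finite fun _ =>
      (isOpen_lt continuous_const (hc' _)).inter (isOpen_lt (hc' _) continuous_const)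

theorem exists_digit {i : ℕ} (hi : i < LL m) {x : ℝ} (h0 : 0 ≤ x) (h1 : x ≤ 1) :
    ∃ c : ℕ, c < bb m + 1 ∧
      (inU m i x → ((c * LL m + i : ℕ) : ℝ) < x * bb (m + 1) ∧
        x * bb (m + 1) < ((c * LL m + i : ℕ) : ℝ) + 1) ∧
      (¬ inU m i x → ((c * LL m + i : ℕ) : ℝ) + 1 / 2 - LL m < x * bb (m + 1) ∧
        x * bb (m + 1) < ((c * LL m + i : ℕ) : ℝ) + 1 / 2) := by
  have hL : (0 : ℝ) < LL m := by exact_mod_cast LL_pos m
  have hi' : (i : ℝ) + 1 ≤ LL m := by exact_mod_cast hi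
  have hi0 : (0 : ℝ) ≤ i := Nat.cast_nonneg i
  have hB : (bb (m + 1) : ℝ) = bb m * LL m := by exact_mod_cast bb_succ m
  have ht0 : 0 ≤ x * bb (m + 1) := by positivity
  have ht1 : x * bb (m + 1) ≤ bb m * LL m := by
    rw [← hB]; exact mul_le_of_le_one_left (Nat.cast_nonneg _) h1
  by_cases h : inU m i x
  · obtain ⟨c, hc1, hc2⟩ := h
    refine ⟨c, ?_, fun _ => ⟨hc1, hc2⟩, fun h' => absurd ⟨c, hc1, hc2⟩ h'⟩
    have : (c : ℝ) * LL m < bb m * LL m := by
      push_cast at hc1; linarith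
    have h2 : (c : ℝ) < bb m := lt_of_mul_lt_mul_right this hL.le
    have h3 : c < bb m := by exact_mod_cast h2
    omega
  · set u := (x * bb (m + 1) - i - 1 / 2) / LL m with hu
    have hu1 : u * LL m = x * bb (m + 1) - i - 1 / 2 := by rw [hu]; field_simp
    have hu2 : -1 < u := by
      rw [hu, lt_div_iff₀ hL]; linarith
    have hu3 : u ≤ bb m := by
      rw [hu, div_le_iff₀ hL]; linarith
    have hc1 : u ≤ ⌈u⌉₊ := Nat.le_ceil u
    have hc2 : (⌈u⌉₊ : ℝ) < u + 1 := by
      rcases le_or_gt 0 u with h2 | h2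
      · exact Nat.ceil_lt_add_one h2
      · rw [Nat.ceil_eq_zero.2 h2.le]; push_cast; linarith
    refine ⟨⌈u⌉₊, Nat.lt_succ_of_le (Nat.ceil_le.2 hu3), fun h' => absurd h' h, fun _ => ?_⟩
    have hc3 : u ≠ ⌈u⌉₊ := by
      intro he
      apply h
      refine ⟨⌈u⌉₊, ?_, ?_⟩ <;> push_cast <;> rw [← he] <;> linarith
    have hc4 := mul_lt_mul_of_pos_right (lt_of_le_of_ne hc1 hc3) hL
    have hc5 := mul_lt_mul_of_pos_right hc2 hL
    push_cast
    constructor <;> nlinarith

theorem exists_cel [Fintype ι] (h01 : ∀ j x, 0 ≤ f j x ∧ f j x ≤ 1) (hdig : ∀ j, dig j < LL m)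
    (z : X) : ∃ (S : Finset ι) (c : ι → ℕ), (∀ j, c j < bb m + 1) ∧ z ∈ cel m f dig S c := by
  classical
  choose c hc using fun j => exists_digit (hdig j) (h01 j z).1 (h01 j z).2
  refine ⟨univ.filter fun j => inU m (dig j) (f j z), c, fun j => (hc j).1, ?_, ?_, ?_⟩
  · intro j hj j' hj'
    simp only [mem_filter, mem_univ, true_and] at hj hj'
    rw [hgt_zero hj']
    exact hgt_pos hj
  · intro j hj
    exact (hc j).2.1 (mem_filter.1 hj).2
  · intro j hj
    simp only [mem_filter, mem_univ, true_and] at hj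
    exact (hc j).2.2 hj

theorem cel_unique {S S' : Finset ι} {c c' : ι → ℕ} {z : X}
    (h : z ∈ cel m f dig S c) (h' : z ∈ cel m f dig S' c') (hc : S.card = S'.card) :
    S = S' ∧ c = c' := by
  have hS : S = S' := by
    by_contra hne
    have h1 : ¬ S ⊆ S' := fun hs => hne (eq_of_subset_of_card_le hs hc.ge)
    have h2 : ¬ S' ⊆ S := fun hs => hne (eq_of_subset_of_card_le hs hc.le).symm
    obtain ⟨j, hj1, hj2⟩ := not_subset.1 h1
    obtain ⟨j', hj1', hj2'⟩ := not_subset.1 h2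
    exact lt_asymm (h.1 j hj1 j' hj2') (h'.1 j' hj1' j hj2)
  subst hS
  refine ⟨rfl, funext fun j => ?_⟩
  have hL : (1 : ℝ) ≤ LL m := by exact_mod_cast LL_pos m
  have key : ∀ a b : ℕ, (a : ℝ) * LL m < b * LL m + LL m → a ≤ b := by
    intro a b hab
    have : (a : ℝ) < b + 1 := lt_of_mul_lt_mul_right (a := (LL m : ℝ)) (by linarith) (by linarith)
    have : a < b + 1 := by exact_mod_cast this
    omega
  by_cases hj : j ∈ S
  · have h1 := h.2.1 j hj
    have h2 := h'.2.1 j hj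
    push_cast at h1 h2
    exact le_antisymm (key _ _ (by linarith)) (key _ _ (by linarith))
  · have h1 := h.2.2 j hj
    have h2 := h'.2.2 j hj
    push_cast at h1 h2
    exact le_antisymm (key _ _ (by linarith)) (key _ _ (by linarith))

theorem cel_diam {S : Finset ι} {c : ι → ℕ} {y x : X}
    (hy : y ∈ cel m f dig S c) (hx : x ∈ cel m f dig S c) (j : ι) :
    |f j y - f j x| ≤ 1 / bb m := by
  have hL : (1 : ℝ) ≤ LL m := by exact_mod_cast LL_pos m
  have hb : (0 : ℝ) < bb m := by exact_mod_cast bb_pos m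
  have hB : (bb (m + 1) : ℝ) = bb m * LL m := by exact_mod_cast bb_succ m
  have h1 : |f j y * bb (m + 1) - f j x * bb (m + 1)| ≤ LL m := by
    rw [abs_le]
    by_cases hj : j ∈ S
    · have h1 := hy.2.1 j hj
      have h2 := hx.2.1 j hj
      constructor <;> linarith
    · have h1 := hy.2.2 j hj
      have h2 := hx.2.2 j hj
      constructor <;> linarith
  rw [← sub_mul, abs_mul, hB, abs_of_pos (a := (bb m : ℝ) * LL m) (by positivity),
    ← mul_assoc] at h1
  rw [le_div_iff₀ hb]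
  exact le_of_mul_le_mul_right (a := (LL m : ℝ)) (by linarith) (by linarith)

theorem exists_cover [TopologicalSpace X] [Fintype ι] (hc : ∀ j, Continuous (f j))
    (h01 : ∀ j x, 0 ≤ f j x ∧ f j x ≤ 1) (hdig : ∀ j, dig j < LL m) {D : ℕ}
    (hD : ∀ (x : X) (S : Finset ι), (∀ j ∈ S, inU m (dig j) (f j x)) → S.card ≤ D) :
    ∃ β : Finset (Set X), IsFinOpenCover β ∧ ord β ≤ D ∧
      ∀ V ∈ β, ∀ x ∈ V, ∀ y ∈ V, ∀ j, |f j y - f j x| ≤ 1 / bb m := by
  classical
  let I : Finset (Finset ι × (ι → ℕ)) := univ ×ˢ Fintype.piFinset fun _ => range (bb m + 1)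
  let β : Finset (Set X) := I.image fun i => cel m f dig i.1 i.2
  refine ⟨β, ⟨fun U hU => ?_, fun z => ?_⟩, ?_, fun V hV x hx y hy j => ?_⟩
  · obtain ⟨i, -, rfl⟩ := mem_image.1 hU
    exact isOpen_cel hc _ _
  · obtain ⟨S, c, hc, hz⟩ := exists_cel h01 hdig z
    exact ⟨_, mem_image.2 ⟨(S, c), by simp [I, hc], rfl⟩, hz⟩
  · rw [ord, Nat.sub_le_iff_le_add]
    refine ciSup_le' fun z => ?_
    calc _ ≤ (I.filter fun i => z ∈ cel m f dig i.1 i.2).card := by
          simp only [β]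
          rw [filter_image]
          convert card_image_le
      _ ≤ (range (D + 1)).card := by
          refine card_le_card_of_injOn (fun i => i.1.card) (fun i hi => ?_) ?_
          · exact mem_range.2 (Nat.lt_succ_of_le
              (hD z _ fun j hj => ⟨_, (mem_filter.1 hi).2.2.1 j hj⟩))
          · intro i hi i' hi' he
            obtain ⟨h1, h2⟩ := cel_unique (mem_filter.1 hi).2 (mem_filter.1 hi').2 he
            exact Prod.ext h1 h2
      _ = _ := card_range _
  · obtain ⟨i, -, rfl⟩ := mem_image.1 hV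
    exact cel_diam hy hx j

end Pool.Agent.MP_2d33ec_an.AP
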