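import Pool.Agent.MP_2d33ec_an.AP.Fam

/-!
Every nontrivial factor of the aperiodic system has infinite topological entropy.
-/

namespace Pool.Agent.MP_2d33ec_an.AP

open Finset

variable {p : ℕ}

theorem sum_ell (K : ℕ) (s : Finset ℕ) (hs : s ⊆ range K) :
    ∑ k ∈ s, (16 * (p / ell k) + 20 : ℝ) ≤ p / 16 + 20 * K := by
  calc _ ≤ ∑ k ∈ range K, (16 * (p / ell k) + 20 : ℝ) :=
        sum_le_sum_of_subset_of_nonneg hs fun _ _ _ => by positivity
    _ = p / 32 * ∑ k ∈ range K, (1 / 2 : ℝ) ^ k + 20 * K := by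
        rw [sum_add_distrib, mul_sum]
        congr 1
        · refine sum_congr rfl fun k _ => ?_
          rw [ell, one_div, inv_pow]
          push_cast
          field_simp
          ring
        · simp [mul_comm]
    _ ≤ p / 32 * 2 + 20 * K := by
        gcongr
        exact sum_geometric_two_le _
    _ = _ := by ring

open Classical in
theorem family_est [Fact p.Prime] (hp : 128 ≤ p) {r κ K : ℕ} (hrκ : r ≤ κ) (hK : ss K < p)
    (hK' : 320 * K ≤ p) {γ : ℝ → ℕ → ℤ → ℝ} (hγ : Continuous γ)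
    (hmem : ∀ t, 0 ≤ t → t ≤ 1 → γ t ∈ XA) (hr : ∀ t k n, (r : ℤ) < |n| → γ t k n = ee k n)
    {F : (ℕ → ℤ → ℝ) → ℝ} (hF : ContinuousOn F XA) {Δ ε : ℝ} (hΔ : 0 < Δ) (hε : 0 < ε)
    (hΔF : 2 * Δ ≤ |F (γ 0) - F (γ 1)|)
    (hwin : ∀ z ∈ XA, ∀ z' ∈ XA, (∀ k < r, ∀ n : ℤ, |n| ≤ r → z k n = z' k n) →
      |F z - F z'| ≤ Δ / 2)
    (hwin' : ∀ z ∈ XA, ∀ z' ∈ XA, (∀ k < K, z k = z' k) → |F z - F z'| ≤ ε / 2)
    (C : Finset (ZMod p → ℝ))
    (hC : ∀ z ∈ XA, ∃ c ∈ C, ∀ a : ZMod p,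
      |F (fun k => shZ (a.val * ss (κ + 1)) (z k)) - c a| ≤ ε / 2) :
    1 ≤ C.card * 2 ^ p * (Real.exp 2 ^ (2 * p) * (2048 * ε / Δ) ^ (p / 256)) := by
  by_contra hsmall
  push Not at hsmall
  set R := ss (κ + 1) with hRdef
  set M := MM κ (ss κ) with hM
  have hR : 0 < R := ss_pos _
  have hsκ := ss_pos κ
  have hl := ell_ge κ
  have hA : 0 < ss κ * (κ + 1) := Nat.mul_pos hsκ κ.succ_pos
  have hR2 : 2 * LL M ≤ R := by
    rw [hRdef, ss]
    exact Nat.mul_le_mul_right _ (by omega)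
  have hML := lt_LL M
  have hM1 : 4 * ell κ * ss κ * (κ + 2) ≤ M := by
    rw [hM, MM]
    exact Nat.mul_le_mul_right _ (Nat.mul_le_mul_left _ (Nat.le_mul_of_pos_right _ κ.succ_pos))
  have hM2 : 2 * r ≤ M := by
    have : 0 < ell κ * ss κ := by positivity
    nlinarith
  have hD : R * (16 * (κ + 2)) ≤ 2 ^ M * 16 * LL M := by
    have h1 : 2 * (ss κ * (κ + 1)) * (κ + 2) ≤ 2 ^ M :=
      le_trans (Nat.mul_le_mul_right _ (Nat.mul_le_mul_right _ (by omega : 2 ≤ 4 * ell κ)))
        Nat.lt_two_pow_self.le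
    calc _ = 2 * (ss κ * (κ + 1)) * (κ + 2) * (16 * LL M) := by rw [hRdef, ss]; ring
      _ ≤ 2 ^ M * (16 * LL M) := Nat.mul_le_mul_right _ h1
      _ = _ := by ring
  have hper : ∀ k ≤ κ, ∀ n, ee k (n + R) = ee k n := fun k hk =>
    ee_per ((two_ss_dvd k).trans (ss_dvd (by omega)))
  let Z1 : ℕ → (ZMod p → ℝ) → ℤ → ℝ := fun k => blk r R fun t => γ t k
  let Z2 : (ZMod p → ℝ) → ℤ → ℝ := blk r R fun t _ => t
  let Z : (ZMod p → ℝ) → ℕ → ℤ → ℝ := fun w k =>
    if k ≤ κ then Z1 k w else if k < K then Z2 w else ee k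
  have hZ1c : ∀ k, Continuous (Z1 k) := fun k => continuous_blk r R (by fun_prop)
  have hZ2c : Continuous Z2 := continuous_blk r R (by fun_prop)
  have hZc : Continuous Z := continuous_pi fun k => by
    simp only [Z]
    split_ifs
    · exact hZ1c k
    · exact hZ2c
    · exact continuous_const
  have hZsh : ∀ (w : ZMod p → ℝ) (a : ZMod p) k, k ≤ κ ∨ k < K →
      Z (sh a w) k = shZ (a.val * R) (Z w k) := fun w a k hk => by
    simp only [Z, Z1, Z2]
    split_ifs
    · simp [shZ_blk hR]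
    · simp [shZ_blk hR]
    · omega
  let E : Set (ZMod p → ℝ) := Z ⁻¹' XA
  have hEs : ∀ w ∈ E, ∀ a, sh a w ∈ E := fun w hw a k => by
    by_cases hk : k ≤ κ ∨ k < K
    · rw [hZsh w a k hk]
      exact shA_mem hw _ k
    · simp only [Z]
      rw [if_neg (by omega), if_neg (by omega)]
      exact ee_mem k
  have m1 := mk_low hp hΔ hε E (isClosed_XA.preimage hZc) hEs (fun w a => F (Z (sh a w)))
    (continuousOn_pi.2 fun a =>
      hF.comp (hZc.comp (continuous_sh a)).continuousOn fun w hw => hEs w hw a)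
    (fun w _ a => by ext b; simp only [sh_sh]; rfl) C (fun w hw => by
      obtain ⟨c, hc, h⟩ := hC _ hw
      refine ⟨c, hc, fun a => ?_⟩
      have h1 := hwin' _ (hEs w hw a) _ (shA_mem hw (a.val * R)) fun k hk =>
        hZsh w a k (Or.inr hk)
      linarith [abs_sub_le (F (Z (sh a w))) (F fun k => shZ (a.val * R) (Z w k)) (c a), h a])
    hsmall
  have m2 := Mk.biUnion (range (κ + 1)) (B := fun k => {w | Z1 k w ∉ XX}) fun k hk =>
    mk_row hR (by omega) hD (Z1 k) (hZ1c k)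
      (fun w n => (hmem _ (vl_mem w _).1 (vl_mem w _).2 k).1.1 _) (shZ_blk hR _) fun w m s hm => by
      obtain ⟨t, s', t0, t1, h⟩ := blk_win (L := LL m) (by have := LL_mono hm; omega) hR
        (hper k (Nat.lt_succ_iff.1 (mem_range.1 hk))) (fun t => hr t k) w s
      refine le_trans (le_of_eq ?_) ((hmem t t0 t1 k).1.2 m s')
      exact congrArg card (filter_congr fun i hi => by rw [← h i (mem_range.1 hi)])
  have m3 := mk_row hR (by omega) hD Z2 hZ2c (fun w n => vl_mem w _) (shZ_blk hR _)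
    fun w m s hm => star_low (by have := LL_mono hm; omega) w s
  have m4 := Mk.biUnion (Ico (κ + 1) K) (B := fun k => {w | w ∈ Sph p ∧ ¬ Cnd k (Z2 w)})
    fun k hk => mk_star (by omega) (ss_dvd (mem_Ico.1 hk).1)
      ((ss_mono (mem_Ico.1 hk).2.le).trans_lt hK)
  have h5 := mk_sph ((((m1.union m2).union m3).union m4).mono (fun w hw => ?_) le_rfl)
  · have h6 := sum_ell (p := p) K (Ico (κ + 1) K) fun k hk => mem_range.2 (mem_Ico.1 hk).2
    have h7 : (320 * K : ℝ) ≤ p := by exact_mod_cast hK'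
    have h8 : (128 : ℝ) ≤ p := by exact_mod_cast hp
    have h9 : ((κ + 1 : ℕ) : ℝ) * (p / (16 * (κ + 2) : ℕ)) + p / (16 * (κ + 2) : ℕ) = p / 16 := by
      push_cast
      field_simp
      ring
    rw [sum_const, card_range, nsmul_eq_mul] at h5
    linarith
  by_cases hwE : w ∈ E
  · refine Or.inl (Or.inl (Or.inl ⟨hwE, ?_⟩))
    obtain ⟨a, ha⟩ := sph_high (by omega) hw
    obtain ⟨b, hb⟩ := sph_low (by omega) hw
    have hnear : ∀ c : ZMod p, |F (Z (sh c w)) - F (γ (vl w c))| ≤ Δ / 2 := fun c => by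
      refine hwin _ (hEs w hwE c) _ (hmem _ (vl_mem w c).1 (vl_mem w c).2) fun k hk n hn => ?_
      rw [abs_le] at hn
      have := blk_near (hper k (by omega)) (fun t => hr t k) (sh c w) (n := n) (by omega)
        (by omega)
      simp only [Z, Z1]
      rw [if_pos (by omega), this]
      simp [vl, sh]
    have h1 := hnear a
    have h2 := hnear b
    rw [vl_one (by linarith)] at h1
    rw [vl_zero (by linarith)] at h2
    refine ⟨a, b, ?_⟩
    rw [abs_le] at h1 h2
    rcases le_abs.1 hΔF with h | h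
    · exact le_abs.2 (Or.inr (by linarith))
    · exact le_abs.2 (Or.inl (by linarith))
  obtain ⟨k, hk⟩ := not_forall.1 hwE
  simp only [Z] at hk
  split_ifs at hk with h1 h2
  · refine Or.inl (Or.inl (Or.inr ⟨k, mem_range.2 (by omega), fun h => hk ⟨h, fun n => ?_⟩⟩))
    have h3 : ell k * ss k ≤ ell κ * ss κ := Nat.mul_le_mul (ell_mono h1) (ss_mono h1)
    have hs := ss_pos k
    obtain ⟨t, s', t0, t1, h⟩ := blk_win (L := 2 * ell k * ss k) (by nlinarith) hR
      (hper k h1) (fun t => hr t k) w n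
    have e : ∀ i < 2 * ell k, Z1 k w (n + i * ss k) = γ t k (s' + i * ss k) := fun i hi => by
      exact_mod_cast h (i * ss k) (Nat.mul_lt_mul_of_pos_right hi hs)
    exact ⟨((hmem t t0 t1 k).2 s').1.imp fun i hi => ⟨hi.1, (e i hi.1).trans hi.2⟩,
      ((hmem t t0 t1 k).2 s').2.imp fun i hi => ⟨hi.1, (e i hi.1).trans hi.2⟩⟩
  · by_cases h3 : Z2 w ∈ XX
    · exact Or.inr ⟨k, mem_Ico.2 ⟨by omega, h2⟩, hw, fun h => hk ⟨h3, h⟩⟩
    · exact Or.inl (Or.inr h3)
  · exact absurd (ee_mem k) hk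

theorem unif {F : (ℕ → ℤ → ℝ) → ℝ} (hF : Continuous fun z : XA => F z.1) {η : ℝ} (hη : 0 < η) :
    ∃ r : ℕ, ∀ z ∈ XA, ∀ z' ∈ XA, (∀ k < r, ∀ n : ℤ, |n| ≤ r → z k n = z' k n) →
      |F z - F z'| ≤ η := by
  obtain ⟨r, δ, hδ, h⟩ := exists_window (fun b : XA => {z : XA | |F z.1 - F b.1| < η / 2})
    (fun b => isOpen_lt (hF.sub continuous_const).abs continuous_const)
    (fun z => ⟨z, by simpa using hη⟩)
  refine ⟨r, fun z hz z' hz' h0 => ?_⟩
  obtain ⟨b, hb⟩ := h ⟨z, hz⟩
  have h1 := hb ⟨z, hz⟩ fun k _ n _ => by simpa using hδ.le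
  have h2 := hb ⟨z', hz'⟩ fun k hk n hn => by simpa [h0 k hk n hn] using hδ.le
  simp only [Set.mem_ofPred_eq, abs_lt] at h1 h2
  rw [abs_le]
  constructor <;> linarith [h1.1, h1.2, h2.1, h2.2]

theorem entropy_top {Y : Type*} [MetricSpace Y] (S : Y → Y) (π : XA → Y) (hπ : Continuous π)
    (hsurj : Function.Surjective π) (hsc : Function.Semiconj π TA S) [Nontrivial Y] :
    Dynamics.coverEntropy S Set.univ = ⊤ := by
  classical
  let y0 : Y := π ⟨ee, ee_mem⟩
  let F : (ℕ → ℤ → ℝ) → ℝ := fun z => if h : z ∈ XA then dist (π ⟨z, h⟩) y0 else 0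
  have hFx : ∀ z : XA, F z.1 = dist (π z) y0 := fun z => by simp [F, z.2]
  have hFc' : Continuous fun z : XA => F z.1 := by
    simp only [hFx]
    fun_prop
  have hFc : ContinuousOn F XA := continuousOn_iff_continuous_domRestrict.2 hFc'
  have hns : ¬ CurC F := by
    intro hs
    obtain ⟨y, hy⟩ := exists_ne y0
    obtain ⟨z, rfl⟩ := hsurj y
    have h1 := const_of_curC hs hFc z.2
    have h2 : F ee = 0 := by
      have := hFx ⟨ee, ee_mem⟩
      simpa [y0] using this
    rw [hFx, h2, dist_eq_zero] at h1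
    exact hy h1
  unfold CurC at hns
  push Not at hns
  obtain ⟨r0, γ, hγ, hmem, hsupp0, hne⟩ := hns
  set Δ := |F (γ 0) - F (γ 1)| / 2 with hΔdef
  have hΔ : 0 < Δ := half_pos (abs_pos.2 (sub_ne_zero.2 hne))
  obtain ⟨r1, hwin0⟩ := unif hFc' (half_pos hΔ)
  set r := max r0 r1 with hr
  have hr0 : r0 ≤ r := le_max_left r0 r1
  have hr1 : r1 ≤ r := le_max_right r0 r1
  set R := ss (r + 1) with hRdef
  have hR : 0 < R := ss_pos _
  have key : ∀ h : ℝ, 0 ≤ h → (h : EReal) ≤ Dynamics.coverEntropy S Set.univ := by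
    intro h hh
    set q := Real.exp (-(512 * (5 + h * R))) with hq
    have hq0 : 0 < q := Real.exp_pos _
    set ε := q * Δ / 2048 with hε
    have hε0 : 0 < ε := by positivity
    obtain ⟨K, hK⟩ := unif hFc' (half_pos hε0)
    refine le_trans ?_ (Dynamics.coverEntropyEntourage_le_coverEntropy S Set.univ
      (Metric.dist_mem_uniformity (half_pos hε0)))
    refine Frequently.le_expGrowthSup (Filter.frequently_atTop.2 fun N => ?_)
    obtain ⟨p, hpN, hp⟩ := Nat.exists_infinite_primes (N + 256 + ss K + 320 * K)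
    have hp256 : 256 ≤ p := by omega
    have := Fact.mk hp
    refine ⟨p * R, le_trans (by omega) (Nat.le_mul_of_pos_right _ hR), ?_⟩
    have e : EReal.exp ((h : EReal) * (p * R : ℕ)) = ENNReal.ofReal (Real.exp (h * R * p)) := by
      rw [← EReal.exp_coe]
      congr 1
      rw [show h * R * p = h * ((p * R : ℕ) : ℝ) by push_cast; ring, EReal.coe_mul]
      rfl
    rw [e]
    simp only [Dynamics.coverMincard, ENat.toENNReal_iInf]
    refine le_iInf₂ fun s hs => ?_
    let C : Finset (ZMod p → ℝ) := s.image fun c a => dist (S^[a.val * R] c) y0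
    have h1 := family_est (p := p) (by omega) (le_refl r) (K := K) (by omega) (by omega) hγ hmem
      (fun t k n hn => hsupp0 t k n (by omega)) hFc hΔ hε0 (by rw [hΔdef]; linarith)
      (fun z hz z' hz' h => hwin0 z hz z' hz' fun k hk n hn => h k (by omega) n (by omega))
      (fun z hz z' hz' h => hK z hz z' hz' fun k hk n _ => congrFun (h k hk) n) C (by
        intro z hz
        obtain ⟨c, hc, hzc⟩ := hs (Set.mem_univ (π ⟨z, hz⟩))
        refine ⟨_, mem_image_of_mem _ (mem_coe.1 hc), fun a => ?_⟩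
        have h2 := Dynamics.mem_dynEntourage.1 hzc (a.val * R)
          (Nat.mul_lt_mul_of_pos_right (ZMod.val_lt a) hR)
        have h3 : (fun k => shZ (a.val * ss (r + 1)) (z k)) = (TA^[a.val * R] ⟨z, hz⟩).1 := by
          ext k n
          rw [TA_iterate]
          push_cast [hRdef]
          rfl
        rw [h3, hFx, hsc.iterate_right]
        exact (abs_dist_sub_le _ _ _).trans (le_of_lt h2))
    have h2 : 2048 * ε / Δ = q := by
      rw [hε]
      field_simp
    rw [h2] at h1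
    have h3 := numeric_step hp256 (by positivity) (Nat.cast_nonneg _) hq h1
    have h4 : (C.card : ℝ) ≤ s.card := by exact_mod_cast card_image_le
    calc ENNReal.ofReal (Real.exp (h * R * p)) ≤ ENNReal.ofReal (s.card : ℝ) :=
          ENNReal.ofReal_le_ofReal (h3.trans h4)
      _ = _ := by simp
  refine (EReal.eq_top_iff_forall_lt _).2 fun y => lt_of_lt_of_le ?_ (key (|y| + 1) (by positivity))
  exact_mod_cast (le_abs_self y).trans_lt (lt_add_one _)

end Pool.Agent.MP_2d33ec_an.AP
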