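import Pool.Agent.MP_2d33ec_an.AP.Gap

/-!
Sparse closed markers for invariant sets of cyclic sequences.
-/

namespace Pool.Agent.MP_2d33ec_an.AP

open Finset

variable {p : ℕ}

open Classical in
/-- Every point of `B` has a shift in a closed set that meets each orbit at most `c` times. -/
def Mk [NeZero p] (B : Set (ZMod p → ℝ)) (c : ℝ) : Prop :=
  ∃ W : Set (ZMod p → ℝ), IsClosed W ∧ (∀ w ∈ B, ∃ a, sh a w ∈ W) ∧
    ∀ w, ((univ.filter fun a => sh a w ∈ W).card : ℝ) ≤ c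

theorem Mk.mono [NeZero p] {B B' : Set (ZMod p → ℝ)} {c c' : ℝ} (h : Mk B c) (hB : B' ⊆ B)
    (hc : c ≤ c') : Mk B' c' :=
  let ⟨W, h1, h2, h3⟩ := h
  ⟨W, h1, fun w hw => h2 w (hB hw), fun w => (h3 w).trans hc⟩

theorem Mk.union [NeZero p] {B B' : Set (ZMod p → ℝ)} {c c' : ℝ} (h : Mk B c) (h' : Mk B' c') :
    Mk (B ∪ B') (c + c') := by
  classical
  obtain ⟨W, h1, h2, h3⟩ := h
  obtain ⟨W', h1', h2', h3'⟩ := h'
  refine ⟨W ∪ W', h1.union h1', ?_, fun w => ?_⟩
  · rintro w (hw | hw)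
    · exact (h2 w hw).imp fun a => Or.inl
    · exact (h2' w hw).imp fun a => Or.inr
  · refine le_trans ?_ (add_le_add (h3 w) (h3' w))
    rw [← Nat.cast_add, Nat.cast_le]
    refine le_trans (card_le_card fun a ha => ?_) (card_union_le _ _)
    simpa using ha

theorem Mk.biUnion [NeZero p] {ι : Type*} (s : Finset ι) {B : ι → Set (ZMod p → ℝ)} {c : ι → ℝ}
    (h : ∀ i ∈ s, Mk (B i) (c i)) : Mk {w | ∃ i ∈ s, w ∈ B i} (∑ i ∈ s, c i) := by
  classical
  induction s using Finset.induction_on with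
  | empty => exact ⟨∅, isClosed_empty, by simp, by simp⟩
  | insert i s hi ih =>
    rw [sum_insert hi]
    refine ((h i (mem_insert_self _ _)).union
      (ih fun j hj => h j (mem_insert_of_mem hj))).mono ?_ le_rfl
    rintro w ⟨j, hj, hw⟩
    rcases mem_insert.1 hj with rfl | hj
    · exact Or.inl hw
    · exact Or.inr ⟨j, hj, hw⟩

/-- The unit sphere of the sum-zero hyperplane. -/
def Sph (p : ℕ) [NeZero p] : Set (ZMod p → ℝ) := {w | ∑ a, w a = 0 ∧ ‖w‖ = 1}

theorem mk_sph [Fact p.Prime] {c : ℝ} (h : Mk (Sph p) c) : (p : ℝ) - 1 ≤ c := by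
  obtain ⟨W, h1, h2, h3⟩ := h
  obtain ⟨w, -, -, hw⟩ := cont_BU W h1 fun w h4 h5 => h2 w ⟨h4, h5⟩
  refine le_trans ?_ (h3 w)
  have h4 : p ≤ _ + 1 := Nat.sub_le_iff_le_add.1 hw
  rw [sub_le_iff_le_add]
  convert (Nat.cast_le (α := ℝ)).2 h4 using 1
  push_cast
  congr

theorem mk_sel [Fact p.Prime] {B : Set (ZMod p → ℝ)} (hBc : IsClosed B)
    (hBs : ∀ w a, sh a w ∈ B ↔ w ∈ B) (g : (ZMod p → ℝ) → ZMod p → ℝ) (hg : Continuous g)
    (hgs : ∀ w a, g (sh a w) = sh a (g w)) (Ω : Finset (ZMod p)) (h0 : 0 ∉ Ω)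
    (hΩ : ∀ w ∈ B, ∃ ω ∈ Ω, hat (g w) ω ≠ 0) : Mk B (2 * Ω.card) := by
  classical
  have hc : ∀ ω, Continuous fun w => hat (g w) ω := fun ω => (continuous_hat ω).comp hg
  refine ⟨B ∩ {w | ∃ ω ∈ Ω, (∀ ω' ∈ Ω, ‖hat (g w) ω'‖ ≤ ‖hat (g w) ω‖) ∧
    ∀ b, (ch (b * ω) * hat (g w) ω).re ≤ (hat (g w) ω).re}, hBc.inter ?_, fun w hw => ?_,
    fun w => ?_⟩
  · simp only [Set.ofPred_exists, Set.ofPred_and, Set.ofPred_forall]
    refine isClosed_iUnion_of_finite fun ω => isClosed_const.inter (IsClosed.inter ?_ ?_)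
    · exact isClosed_iInter fun ω' => isClosed_iInter fun _ =>
        isClosed_le (hc ω').norm (hc ω).norm
    · exact isClosed_iInter fun b => isClosed_le
        (Complex.continuous_re.comp (continuous_const.mul (hc ω)))
        (Complex.continuous_re.comp (hc ω))
  · obtain ⟨ω₀, h1, -⟩ := hΩ w hw
    obtain ⟨ω, h2, h3⟩ := exists_max_image Ω (fun ω => ‖hat (g w) ω‖) ⟨ω₀, h1⟩
    obtain ⟨c, -, hc⟩ := exists_max_image univ
      (fun c : ZMod p => (ch (c * ω) * hat (g w) ω).re) univ_nonempty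
    refine ⟨c, (hBs w c).2 hw, ω, h2, fun ω' h4 => ?_, fun b => ?_⟩
    · rw [hgs, norm_hat_sh, norm_hat_sh]
      exact h3 ω' h4
    · rw [hgs, hat_sh, ← mul_assoc, ← ch_add, ← add_mul]
      exact hc _ (mem_univ _)
  · have hmax : ∀ ω : ZMod p, ∃ s : ℝ, ∀ a : ZMod p,
        (∀ b : ZMod p, (ch (b * ω) * hat (sh a (g w)) ω).re ≤ (hat (sh a (g w)) ω).re) →
        (ch (a * ω) * hat (g w) ω).re = s := by
      intro ω
      obtain ⟨c, -, hc⟩ := exists_max_image univ
        (fun c : ZMod p => (ch (c * ω) * hat (g w) ω).re) univ_nonempty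
      refine ⟨(ch (c * ω) * hat (g w) ω).re, fun a ha => le_antisymm (hc a (mem_univ _)) ?_⟩
      have := ha (c - a)
      rwa [hat_sh, ← mul_assoc, ← ch_add, ← add_mul, sub_add_cancel] at this
    choose s hs using hmax
    have h3 := card_biUnion_le_card_mul (Ω.filter fun ω => hat (g w) ω ≠ 0)
      (fun ω => univ.filter fun a : ZMod p => (ch (a * ω) * hat (g w) ω).re = s ω) 2
      fun ω hω => card_argmax_le_two (fun h => h0 (h ▸ (mem_filter.1 hω).1))
        (mem_filter.1 hω).2 _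
    have h4 := card_filter_le Ω fun ω => hat (g w) ω ≠ 0
    rw [← Nat.cast_ofNat, ← Nat.cast_mul, Nat.cast_le]
    refine le_trans (card_le_card fun a ha => ?_) (h3.trans (by omega))
    simp only [mem_filter, mem_univ, true_and] at ha
    obtain ⟨h5, ω, h6, h7, h8⟩ := ha
    obtain ⟨ω₀, h9, h10⟩ := hΩ w ((hBs w a).1 h5)
    rw [hgs] at h7 h8
    have h11 := h7 ω₀ h9
    rw [norm_hat_sh, norm_hat_sh] at h11
    simp only [mem_biUnion, mem_filter, mem_univ, true_and]
    exact ⟨ω, ⟨h6, norm_pos_iff.1 ((norm_pos_iff.2 h10).trans_le h11)⟩, hs ω a h8⟩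

theorem mk_gap [Fact p.Prime] (g : (ZMod p → ℝ) → ZMod p → ℝ) (hg : Continuous g)
    (hgs : ∀ w a, g (sh a w) = sh a (g w)) (hg0 : ∀ w a, 0 ≤ g w a) {σ : ZMod p} (hσ : σ ≠ 0)
    {h : ℕ} (hh : 4 ≤ h) (hp : 8 ≤ p) :
    Mk {w | (∃ a, 1 / 2 ≤ g w a) ∧ ∃ b, ∀ i < 2 * h, g w (b + i * σ) = 0} (8 * (p / h) + 10) := by
  classical
  set m := p / h + 1 with hm
  have hm1 : p ≤ m * h := by
    rw [hm, mul_comm]
    exact (Nat.lt_mul_div_succ p (by omega)).le
  have hm2 : 2 * m < p := by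
    have : p / h ≤ p / 4 := Nat.div_le_div_left hh (by omega)
    omega
  have hc : ∀ a, Continuous fun w => g w a := fun a => (continuous_apply a).comp hg
  refine (mk_sel ?_ (fun w a => ?_) g hg hgs
    (((Icc (-(2 * m : ℕ) : ℤ) (2 * m : ℕ)).erase 0).image fun t : ℤ => (t : ZMod p) * σ⁻¹) ?_
    ?_).mono Set.Subset.rfl ?_
  · simp only [Set.ofPred_and, Set.ofPred_exists, Set.ofPred_forall]
    exact (isClosed_iUnion_of_finite fun a => isClosed_le continuous_const (hc a)).inter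
      (isClosed_iUnion_of_finite fun b => isClosed_iInter fun i => isClosed_iInter fun _ =>
        isClosed_eq (hc _) continuous_const)
  · simp only [Set.mem_ofPred_eq, hgs, sh]
    refine and_congr ⟨fun ⟨b, hb⟩ => ⟨_, hb⟩, fun ⟨b, hb⟩ => ⟨b - a, by simpa using hb⟩⟩
      ⟨fun ⟨b, hb⟩ => ⟨b + a, fun i hi => ?_⟩, fun ⟨b, hb⟩ => ⟨b - a, fun i hi => ?_⟩⟩
    · rw [add_right_comm]
      exact hb i hi
    · rw [add_right_comm, sub_add_cancel]
      exact hb i hi
  · intro h0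
    obtain ⟨t, ht, h1⟩ := mem_image.1 h0
    obtain ⟨h2, h3⟩ := mem_erase.1 ht
    have h4 := (ZMod.intCast_zmod_eq_zero_iff_dvd t p).1
      ((mul_eq_zero.1 h1).resolve_right (inv_ne_zero hσ))
    refine h2 (Int.eq_zero_of_abs_lt_dvd h4 ?_)
    rw [mem_Icc] at h3
    rw [abs_lt]
    omega
  · rintro w ⟨⟨a, ha⟩, b, hb⟩
    obtain ⟨t, h1, h2, h3⟩ := gap_hat (g w) (hg0 w) ⟨a, by linarith⟩ hσ hm1 b hb
    exact ⟨_, mem_image_of_mem _ (mem_erase.2 ⟨h1, mem_Icc.2 (abs_le.1 h2)⟩), h3⟩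
  · have h1 : (((Icc (-(2 * m : ℕ) : ℤ) (2 * m : ℕ)).erase 0).image
        fun t : ℤ => (t : ZMod p) * σ⁻¹).card ≤ 4 * (p / h) + 5 := by
      refine card_image_le.trans (card_erase_le.trans ?_)
      rw [Int.card_Icc]
      omega
    have h2 := (Nat.cast_le (α := ℝ)).2 h1
    have h3 : ((p / h : ℕ) : ℝ) ≤ p / h := Nat.cast_div_le
    push_cast at h2 ⊢
    linarith

open Classical in
theorem mk_low [Fact p.Prime] (hp : 128 ≤ p) {Δ ε : ℝ} (hΔ : 0 < Δ) (hε : 0 < ε)
    (E : Set (ZMod p → ℝ)) (hEc : IsClosed E) (hEs : ∀ w ∈ E, ∀ a, sh a w ∈ E)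
    (y : (ZMod p → ℝ) → ZMod p → ℝ) (hy : ContinuousOn y E)
    (hys : ∀ w ∈ E, ∀ a, y (sh a w) = sh a (y w))
    (C : Finset (ZMod p → ℝ)) (hC : ∀ w ∈ E, ∃ c ∈ C, ∀ a, |y w a - c a| ≤ ε)
    (hsmall : C.card * 2 ^ p * (Real.exp 2 ^ (2 * p) * (2048 * ε / Δ) ^ (p / 256)) < 1) :
    Mk {w | w ∈ E ∧ ∃ a b, Δ ≤ |y w a - y w b|} (7 / 16 * p) := by
  set τ := Δ / 16 with hτdef
  have hτ : 0 < τ := by positivity
  have hp0 : (0 : ℝ) < p := by exact_mod_cast (by omega : 0 < p)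
  let R4 : Set (ZMod p → ℝ) := {z | p ≤ 16 * (univ.filter fun ω => τ ≤ ‖hat z ω‖).card}
  obtain ⟨μ, hμ⟩ := exists_multiplier hp hτ hε (R4 ∩ y '' E) (fun z hz => hz.1) C
    (by rintro _ ⟨-, w, hw, rfl⟩; exact hC w hw)
    (by rwa [show 128 * ε / τ = 2048 * ε / Δ by rw [hτdef]; field_simp; norm_num])
  let L2 : Set (ZMod p → ℝ) := {z | (∀ ω, ω ≠ 0 → ‖hat z ω‖ ≤ 2 * τ) ∧ Δ / 2 ≤ |ctr z 0|}
  let L3 : Set (ZMod p → ℝ) := {z | (univ.filter fun ω => τ < ‖hat z ω‖).card ≤ p / 16 ∧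
    ∃ ω, ω ≠ 0 ∧ 2 * τ ≤ ‖hat z ω‖ ∧ ∀ b, (ch (b * ω) * hat z ω).re ≤ (hat z ω).re}
  let L4 : Set (ZMod p → ℝ) := R4 ∩ {z | ∀ b, mulG τ μ z b ≤ mulG τ μ z 0}
  have hL2 : IsClosed L2 := by
    have h1 : IsClosed {z : ZMod p → ℝ | ∀ ω, ω ≠ 0 → ‖hat z ω‖ ≤ 2 * τ} := by
      simp only [Set.ofPred_forall]
      exact isClosed_iInter fun ω => isClosed_iInter fun _ =>
        isClosed_le (continuous_hat ω).norm continuous_const
    exact h1.inter (isClosed_le continuous_const ((continuous_apply 0).comp continuous_ctr).abs)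
  have hL3 : IsClosed L3 := by
    have h0 : ∀ ω : ZMod p, IsClosed {z : ZMod p → ℝ |
        ∀ b, (ch (b * ω) * hat z ω).re ≤ (hat z ω).re} := by
      intro ω
      simp only [Set.ofPred_forall]
      exact isClosed_iInter fun b => isClosed_le
        (Complex.continuous_re.comp (continuous_const.mul (continuous_hat ω)))
        (Complex.continuous_re.comp (continuous_hat ω))
    have h1 : IsClosed {z : ZMod p → ℝ | ∃ ω, ω ≠ 0 ∧ 2 * τ ≤ ‖hat z ω‖ ∧
        ∀ b, (ch (b * ω) * hat z ω).re ≤ (hat z ω).re} := by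
      simp only [Set.ofPred_exists]
      exact isClosed_iUnion_of_finite fun ω => IsClosed.inter isClosed_const
        (IsClosed.inter (isClosed_le continuous_const (continuous_hat ω).norm) (h0 ω))
    exact IsClosed.inter (isClosed_card_le (fun ω z => τ < ‖hat z ω‖)
      (fun ω => isOpen_lt continuous_const (continuous_hat ω).norm) _) h1
  have hL4 : IsClosed L4 := by
    refine IsClosed.inter ?_ ?_
    · have := isClosed_card_ge (fun ω (z : ZMod p → ℝ) => τ ≤ ‖hat z ω‖)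
        (fun ω => isClosed_le continuous_const (continuous_hat ω).norm) ((p + 15) / 16)
      convert this using 1
      ext z
      simp only [R4, Set.mem_ofPred_eq]
      omega
    · simp only [Set.ofPred_forall]
      exact isClosed_iInter fun b => isClosed_le (continuous_mulG hτ μ b) (continuous_mulG hτ μ 0)
  have htot : ∀ z : ZMod p → ℝ, (∃ a b, Δ ≤ |z a - z b|) → ∃ a, sh a z ∈ L2 ∪ L3 ∪ L4 := by
    rintro z ⟨a, b, hab⟩
    by_cases h1 : ∀ ω, ω ≠ 0 → ‖hat z ω‖ ≤ 2 * τ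
    · obtain ⟨c, hc⟩ : ∃ c, Δ / 2 ≤ |ctr z c| := by
        by_contra hcon
        push Not at hcon
        have h2 := hcon a
        have h3 := hcon b
        have h4 : z a - z b = ctr z a - ctr z b := by simp [ctr]
        rw [h4] at hab
        have := abs_sub (ctr z a) (ctr z b)
        linarith
      refine ⟨c, Or.inl (Or.inl ⟨fun ω hω => ?_, ?_⟩)⟩
      · rw [norm_hat_sh]; exact h1 ω hω
      · rw [ctr_sh]; simpa [sh] using hc
    · push Not at h1
      obtain ⟨ω, hω, hω2⟩ := h1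
      by_cases h2 : (univ.filter fun ω => τ < ‖hat z ω‖).card ≤ p / 16
      · obtain ⟨c, -, hc⟩ := exists_max_image univ
          (fun c : ZMod p => (ch (c * ω) * hat z ω).re) univ_nonempty
        refine ⟨c, Or.inl (Or.inr ⟨by simpa only [norm_hat_sh] using h2, ω, hω,
          by rw [norm_hat_sh]; exact hω2.le, fun b => ?_⟩)⟩
        rw [hat_sh, ← mul_assoc, ← ch_add, ← add_mul]
        exact hc _ (mem_univ _)
      · obtain ⟨c, -, hc⟩ := exists_max_image univ (mulG τ μ z) univ_nonempty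
        refine ⟨c, Or.inr ⟨?_, fun b => ?_⟩⟩
        · simp only [R4, Set.mem_ofPred_eq, norm_hat_sh]
          have : (univ.filter fun ω => τ < ‖hat z ω‖).card ≤
              (univ.filter fun ω => τ ≤ ‖hat z ω‖).card :=
            card_le_card (monotone_filter_right _ fun ω _ h => h.le)
          omega
        · rw [mulG_sh, mulG_sh, zero_add]
          exact hc _ (mem_univ _)
  have hn2 : ∀ z : ZMod p → ℝ, 16 * (univ.filter fun a => sh a z ∈ L2).card ≤ p := by
    intro z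
    rcases (univ.filter fun a => sh a z ∈ L2).eq_empty_or_nonempty with h | ⟨a₀, ha₀⟩
    · rw [h]; simp
    · have h1 := energy_le z (τ := 2 * τ) fun ω hω => by
        have := (mem_filter.1 ha₀).2.1 ω hω
        rwa [norm_hat_sh] at this
      have h2 : ∑ _a ∈ univ.filter fun a => sh a z ∈ L2, (Δ / 2) ^ 2 ≤ ∑ a, ctr z a ^ 2 := by
        refine le_trans (sum_le_sum fun a ha => ?_)
          (sum_le_sum_of_subset_of_nonneg (subset_univ _) fun _ _ _ => sq_nonneg _)
        have := (mem_filter.1 ha).2.2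
        rw [ctr_sh] at this
        simp only [sh, zero_add] at this
        rw [← sq_abs (ctr z a)]
        gcongr
      rw [sum_const, nsmul_eq_mul] at h2
      have h3 : (16 * (univ.filter fun a => sh a z ∈ L2).card : ℝ) * (Δ / 8) ^ 2 ≤
          p * (Δ / 8) ^ 2 := by
        rw [hτdef] at h1
        nlinarith
      have h4 := le_of_mul_le_mul_right h3 (by positivity)
      exact_mod_cast h4
  have hn3 : ∀ z : ZMod p → ℝ, 8 * (univ.filter fun a => sh a z ∈ L3).card ≤ p := by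
    intro z
    rcases (univ.filter fun a => sh a z ∈ L3).eq_empty_or_nonempty with h | ⟨a₀, ha₀⟩
    · rw [h]; simp
    · have h1 := (mem_filter.1 ha₀).2.1
      simp only [norm_hat_sh] at h1
      have hmax : ∀ ω : ZMod p, ∃ s : ℝ, ∀ a : ZMod p,
          (∀ b : ZMod p, (ch (b * ω) * hat (sh a z) ω).re ≤ (hat (sh a z) ω).re) →
          (ch (a * ω) * hat z ω).re = s := by
        intro ω
        obtain ⟨c, -, hc⟩ := exists_max_image univ
          (fun c : ZMod p => (ch (c * ω) * hat z ω).re) univ_nonempty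
        refine ⟨(ch (c * ω) * hat z ω).re, fun a ha => le_antisymm (hc a (mem_univ _)) ?_⟩
        have := ha (c - a)
        rwa [hat_sh, ← mul_assoc, ← ch_add, ← add_mul, sub_add_cancel] at this
      choose s hs using hmax
      have h2 : (univ.filter fun a => sh a z ∈ L3) ⊆
          ((univ.filter fun ω => τ < ‖hat z ω‖).erase 0).biUnion fun ω =>
            univ.filter fun a : ZMod p => (ch (a * ω) * hat z ω).re = s ω := by
        intro a ha
        obtain ⟨-, ω, h3, h4, h5⟩ := (mem_filter.1 ha).2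
        rw [norm_hat_sh] at h4
        simp only [mem_biUnion, mem_erase, mem_filter, mem_univ, true_and]
        exact ⟨ω, ⟨h3, by linarith⟩, hs ω a h5⟩
      have h3 := (card_le_card h2).trans (card_biUnion_le_card_mul _ _ 2 fun ω hω => by
        simp only [mem_erase, mem_filter, mem_univ, true_and] at hω
        exact card_argmax_le_two hω.1 (norm_pos_iff.1 (hτ.trans hω.2)) _)
      have h4 := card_erase_le (s := univ.filter fun ω => τ < ‖hat z ω‖) (a := 0)
      omega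
  have hn4 : ∀ w ∈ E, 4 * (univ.filter fun a => sh a (y w) ∈ L4).card ≤ p := by
    intro w hw
    rcases (univ.filter fun a => sh a (y w) ∈ L4).eq_empty_or_nonempty with h | ⟨a₀, ha₀⟩
    · rw [h]; simp
    · have h1 := (mem_filter.1 ha₀).2
      have h2 : y w ∈ R4 := by
        have := h1.1
        simpa only [R4, Set.mem_ofPred_eq, norm_hat_sh] using this
      refine le_trans (Nat.mul_le_mul_left 4 (card_le_card ?_))
        (hμ (y w) ⟨h2, w, hw, rfl⟩ (mulG τ μ (y w) a₀))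
      intro a ha
      have h3 := (mem_filter.1 ha).2.2 (a₀ - a)
      have h4 := h1.2 (a - a₀)
      rw [mulG_sh, mulG_sh, zero_add, sub_add_cancel] at h3 h4
      simp only [mem_filter, mem_univ, true_and]
      exact le_antisymm h4 h3
  refine ⟨E ∩ y ⁻¹' (L2 ∪ L3 ∪ L4),
    hy.preimage_isClosed_of_isClosed hEc ((hL2.union hL3).union hL4), ?_, fun w => ?_⟩
  · rintro w ⟨hw, h⟩
    obtain ⟨a, ha⟩ := htot (y w) h
    exact ⟨a, hEs w hw a, by rw [Set.mem_preimage, hys w hw]; exact ha⟩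
  by_cases hwE : w ∈ E
  · have h2 := hn2 (y w)
    have h3 := hn3 (y w)
    have h4 := hn4 w hwE
    have h5 : (univ.filter fun a => sh a w ∈ E ∩ y ⁻¹' (L2 ∪ L3 ∪ L4)) ⊆
        (univ.filter fun a => sh a (y w) ∈ L2) ∪
          (univ.filter fun a => sh a (y w) ∈ L3) ∪ (univ.filter fun a => sh a (y w) ∈ L4) := by
      intro a ha
      simp only [mem_union, mem_filter, mem_univ, true_and] at ha ⊢
      obtain ⟨-, ha⟩ := ha
      rwa [Set.mem_preimage, hys w hwE] at ha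
    have h6 := (card_le_card h5).trans ((card_union_le _ _).trans (Nat.add_le_add_right
      (card_union_le _ _) _))
    have h7 : 16 * (univ.filter fun a => sh a w ∈ E ∩ y ⁻¹' (L2 ∪ L3 ∪ L4)).card ≤ 7 * p := by
      omega
    have h8 := (Nat.cast_le (α := ℝ)).2 h7
    push_cast at h8
    have h9 : ((univ.filter fun a => sh a w ∈ E ∩ y ⁻¹' (L2 ∪ L3 ∪ L4)).card : ℝ) ≤
        7 / 16 * p := by linarith
    convert h9
  · rw [card_eq_zero.2 (eq_empty_of_forall_notMem fun a ha => hwE ?_), Nat.cast_zero]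
    · positivity
    · simp only [mem_filter, mem_univ, true_and] at ha
      have := hEs _ ha.1 (-a)
      rwa [sh_sh, neg_add_cancel, sh_zero] at this

end Pool.Agent.MP_2d33ec_an.AP
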