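import Pool.Agent.MP_2d33ec_an.AP.Conn
import Pool.Agent.MP_2d33ec_an.AP.Mark
import Mathlib.Algebra.Order.Field.GeomSum

/-!
The equivariant family attached to a curve, and the markers for its exceptional set.
-/

namespace Pool.Agent.MP_2d33ec_an.AP

open Finset

variable {p : ℕ}

open Classical in
theorem mk_level [NeZero p] {R : ℕ} (hR : 0 < R) (Z : (ZMod p → ℝ) → ℤ → ℝ) (hZc : Continuous Z)
    (hZ01 : ∀ w n, Z w n ≤ 1) (hZsh : ∀ w (c : ℤ), shZ (c * R) (Z w) = Z (sh (c : ZMod p) w))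
    (m : ℕ) : Mk {w | ∃ s, kk m < cnt m s (Z w)} (2 * (p * R) / kk m) := by
  have hZsh' : ∀ (w : ZMod p → ℝ) (a : ZMod p), Z (sh a w) = shZ (a.val * R) (Z w) := by
    intro w a
    rw [hZsh]
    simp
  have hZper : ∀ w n, Z w (n + (p * R : ℕ)) = Z w n := by
    intro w n
    have := congrFun (hZsh w p) n
    simpa [shZ] using this
  refine ⟨⋃ s ∈ range R, {w | kk m + 1 ≤ cntV m s (Z w)}, ?_, ?_, fun w => ?_⟩
  · refine isClosed_biUnion_finset fun s _ => ?_
    exact isClosed_card_ge' (range (LL m)) (fun (i : ℕ) (w : ZMod p → ℝ) => inV m i (Z w (s + i)))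
      (fun i => (isClosed_inV m i).preimage ((continuous_apply ((s : ℤ) + i)).comp hZc)) _
  · rintro w ⟨s, hms⟩
    have h1 := Int.emod_nonneg s (show (R : ℤ) ≠ 0 by omega)
    have h2 := Int.emod_lt_of_pos s (show (0 : ℤ) < R by omega)
    have h3 := Int.emod_add_ediv_mul s R
    obtain ⟨s', hs'⟩ := Int.eq_ofNat_of_zero_le h1
    have e : cnt m s (Z w) = cnt m s' (Z (sh ((s / R : ℤ) : ZMod p) w)) := by
      rw [← hZsh, cnt_shZ, ← hs', h3]
    exact ⟨_, Set.mem_biUnion (mem_range.2 (by omega : s' < R))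
      ((Nat.succ_le_of_lt (e ▸ hms)).trans (cnt_le_cntV m _ (hZ01 _)))⟩
  · have hk : (0 : ℝ) < kk m := by exact_mod_cast (Nat.zero_le m).trans_lt (lt_kk m)
    rw [le_div_iff₀ hk]
    norm_cast
    refine le_trans ?_ (sum_cntV_le m (p * R) (hZper w))
    refine le_trans (Nat.mul_le_mul_right _ (card_le_card_of_forall_subsingleton
      (t := (range (p * R)).filter fun s : ℕ => kk m + 1 ≤ cntV m s (Z w))
      (fun (a : ZMod p) (s : ℕ) => s / R = a.val) ?_ ?_)) ?_
    · intro a ha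
      simp only [mem_filter, mem_univ, true_and, Set.mem_iUnion, Set.mem_ofPred_eq] at ha
      obtain ⟨s, hs, h⟩ := ha
      have hs' := mem_range.1 hs
      have hav := ZMod.val_lt a
      refine ⟨s + a.val * R, mem_filter.2 ⟨mem_range.2 (by nlinarith), ?_⟩, ?_⟩
      · rw [hZsh', cntV_shZ] at h
        exact_mod_cast h
      · rw [Nat.add_mul_div_right _ _ hR, Nat.div_eq_of_lt hs', zero_add]
    · intro s _ a ha b hb
      exact ZMod.val_injective p (ha.2.symm.trans hb.2)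
    · calc _ = ∑ _s ∈ (range (p * R)).filter fun s : ℕ => kk m + 1 ≤ cntV m s (Z w), kk m := by
            simp
        _ ≤ ∑ s ∈ (range (p * R)).filter fun s : ℕ => kk m + 1 ≤ cntV m s (Z w),
              cntV m s (Z w) := sum_le_sum fun s hs => by have := (mem_filter.1 hs).2; omega
        _ ≤ _ := sum_le_sum_of_subset (filter_subset _ _)

theorem mk_row [NeZero p] {R M D : ℕ} (hR : 0 < R) (hD0 : 0 < D)
    (hD : R * D ≤ 2 ^ M * 16 * LL M) (Z : (ZMod p → ℝ) → ℤ → ℝ) (hZc : Continuous Z)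
    (hZ01 : ∀ w n, 0 ≤ Z w n ∧ Z w n ≤ 1)
    (hZsh : ∀ w (c : ℤ), shZ (c * R) (Z w) = Z (sh (c : ZMod p) w))
    (hlow : ∀ w m s, m ≤ M → cnt m s (Z w) ≤ kk m) : Mk {w | Z w ∉ XX} (p / D) := by
  have hp := NeZero.pos p
  refine (Mk.biUnion (Ico (M + 1) (2 * (p * R))) fun m _ =>
    mk_level hR Z hZc (fun w n => (hZ01 w n).2) hZsh m).mono (fun w hw => ?_) ?_
  · obtain ⟨m, s, hms⟩ : ∃ m s, kk m < cnt m s (Z w) := by
      by_contra hcon
      push Not at hcon
      exact hw ⟨hZ01 w, hcon⟩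
    refine ⟨m, mem_Ico.2 ⟨?_, ?_⟩, s, hms⟩
    · by_contra hcon
      exact absurd (hlow w m s (by omega)) (not_le.2 hms)
    · have hper : ∀ n, shZ s (Z w) (n + (p * R : ℕ)) = shZ s (Z w) n := fun n => by
        have := congrFun (hZsh w p) (n + s)
        simpa [shZ, add_right_comm n] using this
      have h5 := sum_cntV_le m (p * R) hper
      have h6 := single_le_sum (f := fun t : ℕ => cntV m t (shZ s (Z w)))
        (fun _ _ => Nat.zero_le _) (mem_range.2 (Nat.mul_pos hp hR))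
      have h7 := cnt_le_cntV m s fun n => (hZ01 w n).2
      have h8 := lt_kk m
      simp only [cntV_shZ, Nat.cast_zero, zero_add] at h5 h6
      omega
  · have hD1 : (0 : ℝ) < D := by exact_mod_cast hD0
    calc _ ≤ ∑ m ∈ Ico (M + 1) (2 * (p * R)), (p / D * 2 ^ M * (1 / 2) ^ m : ℝ) := by
          refine sum_le_sum fun m hm => ?_
          have hk : (0 : ℝ) < kk m := by exact_mod_cast (Nat.zero_le m).trans_lt (lt_kk m)
          have h1 : 2 * (p * R) * (D * 2 ^ m) ≤ p * 2 ^ M * kk m :=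
            calc _ = p * 2 ^ m * 2 * (R * D) := by ring
              _ ≤ p * 2 ^ m * 2 * (2 ^ M * 16 * LL M) := Nat.mul_le_mul_left _ hD
              _ = p * 2 ^ M * (2 ^ m * 32 * LL M) := by ring
              _ ≤ _ := Nat.mul_le_mul_left _ (kk_ge (mem_Ico.1 hm).1)
          rw [show (p / D * 2 ^ M * (1 / 2) ^ m : ℝ) = p * 2 ^ M / (D * 2 ^ m) by
            rw [one_div, inv_pow]; field_simp, div_le_div_iff₀ hk (by positivity)]
          exact_mod_cast h1
      _ ≤ p / D * 2 ^ M * ((1 / 2) ^ (M + 1) / (1 - 1 / 2)) := by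
          rw [← mul_sum]
          gcongr
          exact geom_sum_Ico_le_of_lt_one (by norm_num) (by norm_num)
      _ = p / D := by
          rw [one_div, inv_pow, pow_succ]
          field_simp
          norm_num

theorem sph_high [NeZero p] (hp : 2 ≤ p) {w : ZMod p → ℝ} (hw : w ∈ Sph p) :
    ∃ a, 1 ≤ p * w a := by
  obtain ⟨hsum, hnorm⟩ := hw
  by_contra hcon
  push Not at hcon
  obtain ⟨c, hc⟩ : ∃ c, 1 ≤ |w c| := by
    by_contra h
    push Not at h
    have := (pi_norm_lt_iff (x := w) zero_lt_one).2 fun c => by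
      rw [Real.norm_eq_abs]; exact h c
    linarith
  have hp2 : (2 : ℝ) ≤ p := by exact_mod_cast hp
  have hc' : w c ≤ -1 := by
    rcases le_abs.1 hc with h | h
    · have := hcon c
      nlinarith
    · linarith
  have h1 : ∑ a, (p * w a) < ∑ a, (1 - if a = c then (p : ℝ) else 0) := by
    refine sum_lt_sum_of_nonempty univ_nonempty fun a _ => ?_
    split_ifs with h
    · rw [h]; nlinarith
    · simpa using hcon a
  rw [← mul_sum, hsum, sum_sub_distrib] at h1
  simp [ZMod.card] at h1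

theorem sph_low [NeZero p] (hp : 2 ≤ p) {w : ZMod p → ℝ} (hw : w ∈ Sph p) :
    ∃ a, 1 ≤ -(p * w a) := by
  simpa using sph_high hp (w := -w) ⟨by simp [hw.1], by rw [norm_neg, hw.2]⟩

/-- The parameter of the block with index `a`. -/
noncomputable def vl (w : ZMod p → ℝ) (a : ZMod p) : ℝ := max 0 (min 1 (p * w a + 1 / 2))

theorem vl_mem (w : ZMod p → ℝ) (a : ZMod p) : 0 ≤ vl w a ∧ vl w a ≤ 1 :=
  ⟨le_max_left _ _, max_le zero_le_one (min_le_left _ _)⟩

theorem vl_one {w : ZMod p → ℝ} {a : ZMod p} (h : 1 / 2 ≤ p * w a) : vl w a = 1 := by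
  rw [vl, min_eq_left (by linarith), max_eq_right zero_le_one]

theorem vl_zero {w : ZMod p → ℝ} {a : ZMod p} (h : 1 / 2 ≤ -(p * w a)) : vl w a = 0 :=
  max_eq_left ((min_le_right _ _).trans (by linarith))

/-- The periodic sequence with blocks of length `R` taken from the curve `γ`. -/
noncomputable def blk (r R : ℕ) (γ : ℝ → ℤ → ℝ) (w : ZMod p → ℝ) : ℤ → ℝ :=
  fun n => γ (vl w (((n + r) / R : ℤ) : ZMod p)) ((n + r) % R - r)

theorem shZ_blk {r R : ℕ} (hR : 0 < R) (γ : ℝ → ℤ → ℝ) (w : ZMod p → ℝ) (c : ℤ) :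
    shZ (c * R) (blk r R γ w) = blk r R γ (sh (c : ZMod p) w) := by
  ext n
  have hR' : (R : ℤ) ≠ 0 := by omega
  simp only [shZ, blk]
  rw [show n + c * R + r = n + r + c * R by ring, Int.add_mul_ediv_right _ _ hR',
    Int.add_mul_emod_self_right]
  simp [vl, sh]

theorem continuous_blk (r R : ℕ) {γ : ℝ → ℤ → ℝ} (hγ : Continuous γ) :
    Continuous (blk r R γ : (ZMod p → ℝ) → ℤ → ℝ) := by
  unfold blk vl
  fun_prop

theorem blk_near {r R : ℕ} {γ : ℝ → ℤ → ℝ} {e : ℤ → ℝ} (he : ∀ n, e (n + R) = e n)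
    (hr : ∀ t n, (r : ℤ) < |n| → γ t n = e n) (w : ZMod p → ℝ) {n : ℤ} (h1 : (r : ℤ) - R < n)
    (h2 : n < R - r) : blk r R γ w n = γ (vl w 0) n := by
  have hR : (0 : ℤ) < R := by omega
  unfold blk
  rcases le_or_gt (-(r : ℤ)) n with h | h
  · rw [Int.ediv_eq_zero_of_lt (by omega) (by omega), Int.emod_eq_of_lt (by omega) (by omega)]
    simp
  · have e1 : (n + r) % R = n + r + R := by
      rw [← Int.add_emod_right (n + r) R, Int.emod_eq_of_lt (by omega) (by omega)]
    rw [e1, hr _ _ (lt_abs.2 (Or.inl (by omega))), hr _ _ (lt_abs.2 (Or.inr (by omega))),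
      show n + r + R - r = n + R by ring, he]

theorem blk_win {r R L : ℕ} (hL : L + 2 * r ≤ R) (hR : 0 < R) {γ : ℝ → ℤ → ℝ} {e : ℤ → ℝ}
    (he : ∀ n, e (n + R) = e n) (hr : ∀ t n, (r : ℤ) < |n| → γ t n = e n) (w : ZMod p → ℝ)
    (s : ℤ) : ∃ t s', 0 ≤ t ∧ t ≤ 1 ∧ ∀ i : ℕ, i < L → blk r R γ w (s + i) = γ t (s' + i) := by
  set c := (s + L - 1 + r) / R with hc
  have h1 := Int.emod_nonneg (s + L - 1 + r) (show (R : ℤ) ≠ 0 by omega)
  have h2 := Int.emod_lt_of_pos (s + L - 1 + r) (show (0 : ℤ) < R by omega)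
  have h3 := Int.emod_add_ediv_mul (s + L - 1 + r) R
  rw [← hc] at h3
  refine ⟨vl (sh (c : ZMod p) w) 0, s - c * R, (vl_mem _ _).1, (vl_mem _ _).2, fun i hi => ?_⟩
  rw [← blk_near he hr _ (by omega) (by omega), ← shZ_blk hR]
  simp only [shZ]
  congr 1
  ring

theorem star_low {r R m : ℕ} (hL : LL m ≤ R) (w : ZMod p → ℝ) (s : ℤ) :
    cnt m s (blk r R (fun t _ => t) w) ≤ kk m := by
  classical
  have hR : (0 : ℤ) < R := by have := LL_pos m; omega
  have h1 := card_inV_le m (vl w (((s + r) / R : ℤ) : ZMod p))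
  have h2 := card_inV_le m (vl w (((s + r) / R + 1 : ℤ) : ZMod p))
  have h3 : 2 ^ 2 ≤ kk m := Nat.pow_le_pow_right two_pos (by omega)
  refine le_trans (card_le_card fun i hi => ?_) ((card_union_le _ _).trans
    ((add_le_add h1 h2).trans h3))
  obtain ⟨h4, h5⟩ := mem_filter.1 hi
  have h6 := inV_of_inU (vl_mem _ _).2 h5
  have h7 := mem_range.1 h4
  have h8 : (s + r) / R ≤ (s + i + r) / R := Int.ediv_le_ediv hR (by omega)
  have h9 : (s + i + r) / R ≤ (s + r + 1 * R) / R := Int.ediv_le_ediv hR (by omega)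
  rw [Int.add_mul_ediv_right _ _ hR.ne'] at h9
  rw [mem_union, mem_filter, mem_filter]
  rcases (by omega : (s + i + r) / R = (s + r) / R ∨ (s + i + r) / R = (s + r) / R + 1) with h | h
  · exact Or.inl ⟨h4, h ▸ h6⟩
  · exact Or.inr ⟨h4, h ▸ h6⟩

theorem mk_star [Fact p.Prime] (hp : 8 ≤ p) {r R k : ℕ} (hR : R ∣ ss k) (hk : ss k < p) :
    Mk {w | w ∈ Sph p ∧ ¬ Cnd k (blk r R (fun t _ => t) w)} (16 * (p / ell k) + 20) := by
  obtain ⟨q, hq⟩ := hR
  have hs := ss_pos k
  have hR0 : 0 < R := Nat.pos_of_ne_zero fun h => by simp [h] at hq; omega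
  have hq0 : 0 < q := Nat.pos_of_ne_zero fun h => by simp [h] at hq; omega
  have hσ : (q : ZMod p) ≠ 0 := fun h =>
    absurd (Nat.le_of_dvd hq0 ((ZMod.natCast_eq_zero_iff q p).1 h)) (by nlinarith)
  have h1 := mk_gap (p := p) (fun w a => max 0 (-(p * w a) - 1 / 2)) (by fun_prop)
    (fun _ _ => rfl) (fun _ _ => le_max_left _ _) hσ (ell_ge k) hp
  have h2 := mk_gap (p := p) (fun w a => max 0 (p * w a - 1 / 2)) (by fun_prop)
    (fun _ _ => rfl) (fun _ _ => le_max_left _ _) hσ (ell_ge k) hp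
  refine (h1.union h2).mono ?_ (by linarith)
  rintro w ⟨hw, hc⟩
  obtain ⟨n, hn⟩ := not_forall.1 hc
  have e : ∀ i : ℕ, blk r R (fun t _ => t) w (n + i * ss k) =
      vl w (((n + r) / R : ℤ) + i * q) := fun i => by
    simp only [blk]
    rw [show n + i * ss k + r = n + r + i * q * R by rw [hq]; push_cast; ring,
      Int.add_mul_ediv_right _ _ (by omega)]
    push_cast
    rfl
  simp only [e, not_and_or, not_exists] at hn
  rcases hn with hn | hn
  · obtain ⟨a, ha⟩ := sph_low (by omega) hw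
    refine Or.inl ⟨⟨a, le_max_of_le_right (by linarith)⟩, ((n + r) / R : ℤ),
      fun i hi => max_eq_left ?_⟩
    by_contra hcon
    exact (hn i).resolve_left (not_not.2 hi) (vl_zero (by linarith))
  · obtain ⟨a, ha⟩ := sph_high (by omega) hw
    refine Or.inr ⟨⟨a, le_max_of_le_right (by linarith)⟩, ((n + r) / R : ℤ),
      fun i hi => max_eq_left ?_⟩
    by_contra hcon
    exact (hn i).resolve_left (not_not.2 hi) (vl_one (by linarith))

end Pool.Agent.MP_2d33ec_an.AP
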