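import Pool.Agent.MP_2d33ec_an.MdimZero

/-!
A nonnegative function on `ZMod p` with a long gap has a nonzero Fourier coefficient of low
frequency.
-/

namespace Pool.Agent.MP_2d33ec_an.AP

open Finset

variable {p : ℕ} [NeZero p]

theorem ch_lower {h : ℕ} {i : ZMod p} (h1 : h ≤ i.val) (h2 : i.val + h ≤ p) :
    4 * (h / p : ℝ) ≤ ‖1 - ch i‖ := by
  have hp : (0 : ℝ) < p := Nat.cast_pos.2 (NeZero.pos p)
  have e : ch i = Complex.exp (Complex.I * (2 * Real.pi * i.val / p : ℝ)) := by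
    rw [ch, ZMod.stdAddChar_apply, ZMod.toCircle_apply]
    congr 1
    push_cast
    ring
  rw [norm_sub_rev, e, Complex.norm_exp_I_mul_ofReal_sub_one, Real.norm_eq_abs]
  refine le_trans ?_ (le_abs_self _)
  have h1' : (h : ℝ) ≤ i.val := by exact_mod_cast h1
  have h2' : (i.val : ℝ) + h ≤ p := by exact_mod_cast h2
  have key : ∀ v : ℝ, h ≤ v → 2 * v ≤ p → 2 * (h / p : ℝ) ≤ Real.sin (Real.pi * (v / p)) := by
    intro v hv hv2
    have h0 : (0 : ℝ) ≤ v := (Nat.cast_nonneg h).trans hv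
    have h3 : v / p ≤ 1 / 2 := by rw [div_le_iff₀ hp]; linarith
    have h4 := Real.mul_le_sin (x := Real.pi * (v / p)) (by positivity)
      (by nlinarith [Real.pi_pos])
    have h5 : 2 / Real.pi * (Real.pi * (v / p)) = 2 * (v / p) := by field_simp
    have h6 : (h / p : ℝ) ≤ v / p := by gcongr
    linarith
  have e2 : 2 * Real.pi * i.val / p / 2 = Real.pi * (i.val / p) := by ring
  rw [e2]
  rcases le_total (2 * (i.val : ℝ)) p with h3 | h3
  · linarith [key _ h1' h3]
  · have h4 := key (p - i.val) (by linarith) (by linarith)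
    rw [show Real.pi * ((p - i.val) / p) = Real.pi - Real.pi * (i.val / p) by field_simp,
      Real.sin_pi_sub] at h4
    linarith

theorem energy (G : ZMod p → ℝ) (φ : ZMod p → ZMod p) (N : ℕ)
    (hS : ∀ t : ℤ, t ≠ 0 → |t| ≤ N → ∑ a, (G a : ℂ) * ch (φ a * (t : ZMod p)) = 0) (c : ℕ → ℝ) :
    ∑ a, G a * ‖∑ t ∈ range N, (c t : ℂ) * ch (φ a * (t : ZMod p))‖ ^ 2 =
      (∑ a, G a) * ∑ t ∈ range N, c t ^ 2 := by
  have h1 : ∀ z : ℂ, ((‖z‖ ^ 2 : ℝ) : ℂ) = z * (starRingEnd ℂ) z := by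
    intro z
    rw [Complex.mul_conj, Complex.normSq_eq_norm_sq]
  apply Complex.ofReal_injective
  simp only [Complex.ofReal_sum, Complex.ofReal_mul, h1, map_sum, map_mul, Complex.conj_ofReal,
    ← ch_neg, sum_mul_sum]
  simp only [mul_sum]
  rw [sum_comm]
  rw [sum_comm (s := univ)]
  refine sum_congr rfl fun t ht => ?_
  rw [sum_comm, sum_eq_single t]
  · refine sum_congr rfl fun a _ => ?_
    have : ch (φ a * (t : ZMod p)) * ch (-(φ a * (t : ZMod p))) = 1 := by rw [← ch_add, add_neg_cancel, ch_zero]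
    push_cast
    linear_combination (G a * c t ^ 2 : ℂ) * this
  · intro u hu hut
    have h2 := hS (t - u) (by omega) (by
      have := mem_range.1 ht
      have := mem_range.1 hu
      rw [abs_le]
      omega)
    calc _ = (c t * c u : ℂ) * ∑ a, (G a : ℂ) * ch (φ a * ((t - u : ℤ) : ZMod p)) := by
          rw [mul_sum]
          refine sum_congr rfl fun a _ => ?_
          have : ch (φ a * ((t - u : ℤ) : ZMod p)) = ch (φ a * (t : ZMod p)) * ch (-(φ a * (u : ZMod p))) := by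
            rw [← ch_add]
            congr 1
            push_cast
            ring
          rw [this]
          ring
      _ = 0 := by rw [h2, mul_zero]
  · intro h
    exact absurd ht h

theorem abel (q : ℕ → ℝ) (h0 : q 0 = 0) (i : ZMod p) (N : ℕ) :
    (1 - ch i) * ∑ t ∈ range N, (q (t + 1) : ℂ) * ch (i * (t : ZMod p)) =
      ∑ t ∈ range N, ((q (t + 1) - q t : ℝ) : ℂ) * ch (i * (t : ZMod p)) - q N * ch (i * (N : ZMod p)) := by
  induction N with
  | zero => simp [h0]
  | succ N ih =>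
    rw [sum_range_succ, sum_range_succ, mul_add, ih]
    have : ch (i * ((N + 1 : ℕ) : ZMod p)) = ch (i * (N : ZMod p)) * ch i := by
      rw [← ch_add]
      congr 1
      push_cast
      ring
    rw [this]
    push_cast
    ring

theorem cube_le (m : ℕ) : (m : ℝ) ^ 3 ≤ 3 * ∑ t ∈ range m, ((t : ℝ) + 1) ^ 2 := by
  induction m with
  | zero => simp
  | succ m ih =>
    rw [sum_range_succ]
    push_cast
    nlinarith [Nat.cast_nonneg (α := ℝ) m]

theorem gap_core (G : ZMod p → ℝ) (hG : ∀ a, 0 ≤ G a) (φ : ZMod p → ZMod p) {h m : ℕ}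
    (hm : p ≤ m * h) (hgap : ∀ a, G a ≠ 0 → h ≤ (φ a).val ∧ (φ a).val + h ≤ p)
    (hS : ∀ t : ℤ, t ≠ 0 → |t| ≤ (2 * m : ℕ) → ∑ a, (G a : ℂ) * ch (φ a * (t : ZMod p)) = 0) :
    ∑ a, G a ≤ 0 := by
  have hp : (0 : ℝ) < p := Nat.cast_pos.2 (NeZero.pos p)
  have hm0 : 0 < m := Nat.pos_of_ne_zero fun h => by simp [h, NeZero.ne p] at hm
  let q : ℕ → ℝ := fun t => min t (2 * m - t)
  have h1 := energy G φ (2 * m) hS fun t => q (t + 1)
  have h2 := energy G φ (2 * m) hS fun t => q (t + 1) - q t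
  have hq0 : q 0 = 0 := by simp [q]
  have hqN : q (2 * m) = 0 := by simp [q]
  have h3 : (4 * (h / p : ℝ)) ^ 2 * ((∑ a, G a) * ∑ t ∈ range (2 * m), q (t + 1) ^ 2) ≤
      (∑ a, G a) * ∑ t ∈ range (2 * m), (q (t + 1) - q t) ^ 2 := by
    rw [← h1, ← h2, mul_sum]
    refine sum_le_sum fun a _ => ?_
    by_cases ha : G a = 0
    · simp [ha]
    have h4 := abel q hq0 (φ a) (2 * m)
    rw [hqN, Complex.ofReal_zero, zero_mul, sub_zero] at h4
    rw [← h4, norm_mul, mul_pow ‖1 - ch (φ a)‖, mul_left_comm]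
    have := ch_lower (hgap a ha).1 (hgap a ha).2
    have := hG a
    gcongr
  have h4 : ∑ t ∈ range (2 * m), (q (t + 1) - q t) ^ 2 ≤ 2 * m := by
    calc _ ≤ ∑ _t ∈ range (2 * m), (1 : ℝ) := sum_le_sum fun t _ => by
          rw [sq_le_one_iff_abs_le_one, abs_le]
          simp only [q, min_def]
          push_cast
          split_ifs <;> constructor <;> linarith
      _ = 2 * m := by simp
  have h5 : (m : ℝ) ^ 3 ≤ 3 * ∑ t ∈ range (2 * m), q (t + 1) ^ 2 := by
    refine (cube_le m).trans (mul_le_mul_of_nonneg_left ?_ (by norm_num))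
    refine le_trans (le_of_eq (sum_congr rfl fun t ht => ?_))
      (sum_le_sum_of_subset_of_nonneg (range_mono (by omega : m ≤ 2 * m)) fun _ _ _ => sq_nonneg _)
    have : (t : ℝ) + 1 ≤ m := by exact_mod_cast mem_range.1 ht
    simp only [q]
    push_cast
    rw [min_eq_left (by linarith)]
  by_contra hcon
  push Not at hcon
  have hm1 : (0 : ℝ) < m := by exact_mod_cast hm0
  have h6 : 1 ≤ m * (h / p : ℝ) := by
    rw [← mul_div_assoc, one_le_div hp]
    exact_mod_cast hm
  rw [mul_left_comm] at h3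
  have h7 := le_of_mul_le_mul_left h3 hcon
  have h8 : (1 : ℝ) ≤ (m * (h / p)) ^ 2 := one_le_pow₀ h6
  nlinarith [mul_le_mul_of_nonneg_left h5 (sq_nonneg (4 * (h / p : ℝ))),
    mul_le_mul_of_nonneg_left h8 hm1.le]

theorem gap_hat [Fact p.Prime] (G : ZMod p → ℝ) (hG : ∀ a, 0 ≤ G a) (hG0 : ∃ a, 0 < G a)
    {σ : ZMod p} (hσ : σ ≠ 0) {h m : ℕ} (hm : p ≤ m * h) (b : ZMod p)
    (hgap : ∀ i < 2 * h, G (b + i * σ) = 0) :
    ∃ t : ℤ, t ≠ 0 ∧ |t| ≤ (2 * m : ℕ) ∧ hat G (t * σ⁻¹) ≠ 0 := by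
  by_contra hcon
  push Not at hcon
  have hp : (0 : ℝ) < p := Nat.cast_pos.2 (NeZero.pos p)
  have h1 := gap_core G hG (fun a => (a - (b + h * σ)) * σ⁻¹) hm (fun a ha => ?_) fun t ht h2 => ?_
  · obtain ⟨a, ha⟩ := hG0
    exact absurd (sum_pos' (fun a _ => hG a) ⟨a, mem_univ _, ha⟩) (not_lt.2 h1)
  · set i := (a - (b + h * σ)) * σ⁻¹ with hi
    have e : a = b + (i.val + h) * σ := by
      rw [ZMod.natCast_zmod_val, hi]
      field_simp
      ring
    have hv := ZMod.val_lt i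
    constructor
    · by_contra h3
      refine ha ?_
      have := hgap (i.val + h) (by omega)
      rwa [Nat.cast_add, ← e] at this
    · by_contra h3
      refine ha ?_
      have := hgap (i.val + h - p) (by omega)
      rwa [Nat.cast_sub (by omega), ZMod.natCast_self, sub_zero, Nat.cast_add, ← e] at this
  · have h3 := hcon (-t) (by omega) (by rwa [abs_neg])
    simp only [hat, syn, mul_eq_zero, Complex.ofReal_eq_zero, inv_eq_zero] at h3
    have h4 := h3.resolve_left (Real.sqrt_pos.2 hp).ne'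
    calc _ = ch (-((b + (h : ZMod p) * σ) * σ⁻¹ * (t : ZMod p))) *
          ∑ a, (G a : ℂ) * ch (-(((-t : ℤ) : ZMod p) * σ⁻¹) * a) := by
          rw [mul_sum]
          refine sum_congr rfl fun a _ => ?_
          rw [mul_left_comm, ← ch_add]
          congr 2
          push_cast
          ring
      _ = 0 := by rw [h4, mul_zero]

end Pool.Agent.MP_2d33ec_an.AP
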