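import Pool.Agent.MP_2d33ec_an.AP.Cover

/-!
The aperiodic system: countably many rows, each in the subshift `XX`, the `k`-th row having a `0`
and a `1` in every window of every progression of step `ss k`. It has mean dimension zero.
-/

namespace Pool.Agent.MP_2d33ec_an.AP

open Finset

/-- Half the window length of row `k`. -/
def ell (k : ℕ) : ℕ := 2 ^ (k + 9)

/-- The level attached to a step. -/
def MM (k s : ℕ) : ℕ := 4 * ell k * (s * (k + 1)) * (k + 2)

/-- The step of row `k`. -/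
def ss : ℕ → ℕ
  | 0 => 1
  | k + 1 => 2 * (ss k * (k + 1)) * LL (MM k (ss k))

theorem ss_pos : ∀ k, 0 < ss k
  | 0 => Nat.one_pos
  | k + 1 => Nat.mul_pos (Nat.mul_pos two_pos (Nat.mul_pos (ss_pos k) k.succ_pos)) (LL_pos _)

theorem two_ss_dvd (k : ℕ) : 2 * ss k ∣ ss (k + 1) :=
  ⟨(k + 1) * LL (MM k (ss k)), by rw [ss]; ring⟩

theorem ss_dvd {j k : ℕ} (h : j ≤ k) : ss j ∣ ss k := by
  induction h with
  | refl => exact dvd_rfl
  | step _ ih => exact ih.trans ((Dvd.intro_left 2 rfl).trans (two_ss_dvd _))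

theorem ss_mono {j k : ℕ} (h : j ≤ k) : ss j ≤ ss k := Nat.le_of_dvd (ss_pos k) (ss_dvd h)

theorem succ_dvd_ss (k : ℕ) : k + 1 ∣ ss (k + 1) :=
  ⟨2 * ss k * LL (MM k (ss k)), by rw [ss]; ring⟩

theorem ell_ge (k : ℕ) : 4 ≤ ell k :=
  le_trans (by norm_num) (Nat.pow_le_pow_right two_pos (by omega : 2 ≤ k + 9))

theorem ell_mono {j k : ℕ} (h : j ≤ k) : ell j ≤ ell k := Nat.pow_le_pow_right two_pos (by omega)

/-- Every window of every progression of step `ss k` contains a `0` and a `1`. -/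
def Cnd (k : ℕ) (x : ℤ → ℝ) : Prop :=
  ∀ n : ℤ, (∃ i < 2 * ell k, x (n + i * ss k) = 0) ∧ ∃ i < 2 * ell k, x (n + i * ss k) = 1

/-- The phase space. -/
def XA : Set (ℕ → ℤ → ℝ) := {x | ∀ k, x k ∈ XX ∧ Cnd k (x k)}

/-- The standard point. -/
noncomputable def ee (k : ℕ) (n : ℤ) : ℝ := if Even (n / ss k) then 0 else 1

theorem ee01 (k : ℕ) (n : ℤ) : ee k n = 0 ∨ ee k n = 1 := by
  unfold ee
  split_ifs <;> simp

theorem ee_add (k : ℕ) (n : ℤ) : ee k (n + ss k) = 1 - ee k n := by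
  have h : (ss k : ℤ) ≠ 0 := by have := ss_pos k; omega
  have e : (n + ss k) / ss k = n / ss k + 1 := by
    simpa using Int.add_mul_ediv_right n 1 h
  unfold ee
  rw [e]
  by_cases h1 : Even (n / ss k) <;> simp [h1, Int.even_add_one]

theorem ee_per {k R : ℕ} (h : 2 * ss k ∣ R) (n : ℤ) : ee k (n + R) = ee k n := by
  obtain ⟨c, rfl⟩ := h
  induction c with
  | zero => simp
  | succ c ih =>
    have : n + (2 * ss k * (c + 1) : ℕ) = n + (2 * ss k * c : ℕ) + ss k + ss k := by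
      push_cast
      ring
    rw [this, ee_add, ee_add, ih, sub_sub_cancel]

theorem not_inU_one (m i : ℕ) : ¬ inU m i 1 := not_inU_of_grid (n := bb (m + 1)) (by simp)

theorem mem_XX_of {x z : ℤ → ℝ} (hx : x ∈ XX) (h : ∀ n, z n = x n ∨ z n = 0 ∨ z n = 1) :
    z ∈ XX := by
  refine ⟨fun n => ?_, fun m s => le_trans (cnt_mono fun i _ hi => ?_) (hx.2 m s)⟩
  · rcases h n with h | h | h <;> rw [h]
    · exact hx.1 n
    · simp
    · simp
  · rcases h (s + i) with h | h | h <;> rw [h] at hi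
    · exact hi
    · exact absurd hi (not_inU_zero m i)
    · exact absurd hi (not_inU_one m i)

theorem two_vals {k : ℕ} {x : ℤ → ℝ} {n : ℤ} {i j : ℕ} (hi : i < 2 * ell k) (hj : j < 2 * ell k)
    (h : x (n + i * ss k) = 0 ∨ x (n + i * ss k) = 1)
    (h' : x (n + j * ss k) = 1 - x (n + i * ss k)) :
    (∃ i < 2 * ell k, x (n + i * ss k) = 0) ∧ ∃ i < 2 * ell k, x (n + i * ss k) = 1 := by
  rcases h with h | h
  · exact ⟨⟨i, hi, h⟩, j, hj, by rw [h', h, sub_zero]⟩
  · exact ⟨⟨j, hj, by rw [h', h, sub_self]⟩, i, hi, h⟩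

theorem ee_mem : ee ∈ XA := fun k =>
  ⟨mem_XX_of zero_mem_XX fun n => Or.inr (ee01 k n), fun n =>
    two_vals (i := 0) (j := 1) (by have := ell_ge k; omega) (by have := ell_ge k; omega)
      (ee01 _ _) (by simp [ee_add])⟩

theorem isClosed_XA : IsClosed XA := by
  have hc : ∀ k n, Continuous fun x : ℕ → ℤ → ℝ => x k n := fun k n => by fun_prop
  have h1 : ∀ (k : ℕ) (n : ℤ) (c : ℝ), IsClosed
      {x : ℕ → ℤ → ℝ | ∃ i < 2 * ell k, x k (n + i * ss k) = c} := fun k n c => by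
    have : {x : ℕ → ℤ → ℝ | ∃ i < 2 * ell k, x k (n + i * ss k) = c} =
        ⋃ i ∈ range (2 * ell k), {x | x k (n + i * ss k) = c} := by
      ext x
      simp
    rw [this]
    exact isClosed_biUnion_finset fun i _ => isClosed_eq (hc _ _) continuous_const
  simp only [XA, Cnd, Set.ofPred_forall, Set.ofPred_and]
  exact isClosed_iInter fun k => (isClosed_XX.preimage (continuous_apply k)).inter
    (isClosed_iInter fun n => (h1 k n 0).inter (h1 k n 1))

instance : CompactSpace XA := isCompact_iff_compactSpace.1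
  ((isCompact_univ_pi fun _ : ℕ => isCompact_XX).of_isClosed_subset isClosed_XA
    fun _ hz k _ => (hz k).1)

instance : TopologicalSpace.MetrizableSpace XA :=
  TopologicalSpace.metrizableSpace_of_t3_secondCountable _

theorem Cnd.shZ {k : ℕ} {x : ℤ → ℝ} (h : Cnd k x) (a : ℤ) : Cnd k (shZ a x) := fun n => by
  simpa only [MP_2d33ec_an.shZ, add_right_comm n _ a] using h (n + a)

theorem shA_mem {z : ℕ → ℤ → ℝ} (hz : z ∈ XA) (a : ℤ) : (fun k => shZ a (z k)) ∈ XA :=
  fun k => ⟨shZ_mem (hz k).1 a, (hz k).2.shZ a⟩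

theorem continuous_coord (k : ℕ) (n : ℤ) : Continuous fun z : XA => z.1 k n :=
  (continuous_apply_apply k n).comp continuous_subtype_val

/-- The shift homeomorphism. -/
def TA : XA ≃ₜ XA where
  toFun z := ⟨fun k => shZ 1 (z.1 k), shA_mem z.2 1⟩
  invFun z := ⟨fun k => shZ (-1) (z.1 k), shA_mem z.2 (-1)⟩
  left_inv z := by ext k n; simp [shZ]
  right_inv z := by ext k n; simp [shZ]
  continuous_toFun := Continuous.subtype_mk
    (continuous_pi fun k => continuous_pi fun n => continuous_coord k (n + 1)) _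
  continuous_invFun := Continuous.subtype_mk
    (continuous_pi fun k => continuous_pi fun n => continuous_coord k (n + -1)) _

theorem TA_iterate (j : ℕ) (z : XA) (k : ℕ) (n : ℤ) : (TA^[j] z).1 k n = z.1 k (n + j) := by
  induction j generalizing n with
  | zero => simp
  | succ j ih =>
    rw [Function.iterate_succ_apply']
    show (TA^[j] z).1 k (n + 1) = _
    rw [ih]
    simp [add_assoc, add_comm (1 : ℤ)]

theorem aperiodic (d : ℕ) (hd : 0 < d) (z : XA) : TA^[d] z ≠ z := by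
  intro h
  obtain ⟨k, rfl⟩ : ∃ k, d = k + 1 := ⟨d - 1, by omega⟩
  obtain ⟨q, hq⟩ := succ_dvd_ss k
  have h1 : ∀ i : ℕ, z.1 (k + 1) (0 + i * ss (k + 1)) = z.1 (k + 1) 0 := fun i => by
    have h2 : TA^[(k + 1) * (q * i)] z = z := by
      rw [Function.iterate_mul]
      exact Function.iterate_fixed h _
    have h3 := TA_iterate ((k + 1) * (q * i)) z (k + 1) 0
    rw [h2] at h3
    rw [h3, hq]
    push_cast
    ring_nf
  obtain ⟨⟨i, -, hi⟩, j, -, hj⟩ := (z.2 (k + 1)).2 0
  rw [h1] at hi hj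
  exact zero_ne_one (hi.symm.trans hj)

/-- Uniform continuity in coordinates. -/
theorem exists_window {β : Type*} (U : β → Set XA) (hU : ∀ b, IsOpen (U b))
    (hcov : ∀ x, ∃ b, x ∈ U b) : ∃ (r : ℕ) (δ : ℝ), 0 < δ ∧ ∀ x : XA, ∃ b, ∀ y : XA,
      (∀ k < r, ∀ n : ℤ, |n| ≤ r → |y.1 k n - x.1 k n| ≤ δ) → y ∈ U b := by
  by_contra hcon
  push Not at hcon
  have h1 : ∀ r : ℕ, ∃ x : XA, ∀ b, ∃ y : XA,
      (∀ k < r, ∀ n : ℤ, |n| ≤ r → |y.1 k n - x.1 k n| ≤ 1 / (r + 1)) ∧ y ∉ U b := fun r =>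
    hcon r _ (by positivity)
  choose x hx using h1
  obtain ⟨x₀, φ, hφ, hlim⟩ := CompactSpace.tendsto_subseq x
  obtain ⟨b, hb⟩ := hcov x₀
  choose y hy1 hy2 using fun r => hx r b
  have h2 : Filter.Tendsto (fun r => y (φ r)) Filter.atTop (nhds x₀) := by
    simp only [tendsto_subtype_rng, tendsto_pi_nhds] at hlim ⊢
    intro k n
    have h3 : Filter.Tendsto (fun r => (y (φ r)).1 k n - (x (φ r)).1 k n) Filter.atTop
        (nhds 0) := by
      refine squeeze_zero_norm' ?_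
        (tendsto_one_div_add_atTop_nhds_zero_nat.comp hφ.tendsto_atTop)
      filter_upwards [Filter.eventually_ge_atTop (n.natAbs + k + 1)] with r hr
      have := hφ.id_le r
      simp only [id] at this
      refine hy1 (φ r) k (by omega) n ?_
      rw [Int.abs_eq_natAbs]
      omega
    simpa using h3.add (hlim k n)
  obtain ⟨r, hr⟩ := (h2.eventually ((hU b).mem_nhds hb)).exists
  exact hy2 _ hr

theorem row_card {m r Q : ℕ} {z : ℤ → ℝ} (hz : z ∈ XX) (S : Finset (Fin (Q * LL m)))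
    (h : ∀ j ∈ S, inU m (j.val % LL m) (z (j.val - r))) : S.card ≤ kk m * Q := by
  classical
  refine le_of_le_of_eq (card_le_mul_card_image_of_maps_to (t := range Q)
    (f := fun j => j.val / LL m) (fun j _ => ?_) _ fun q _ => ?_) (by rw [card_range])
  · exact mem_range.2 (Nat.div_lt_of_lt_mul (j.2.trans_eq (mul_comm _ _)))
  · refine le_trans ?_ (hz.2 m (q * LL m - r))
    refine card_le_card_of_injOn (fun j => j.val % LL m) (fun j hj => ?_) ?_
    · obtain ⟨hj1, hj2⟩ := mem_filter.1 hj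
      refine mem_filter.2 ⟨mem_range.2 (Nat.mod_lt _ (LL_pos m)), ?_⟩
      have e : (q : ℤ) * LL m - r + (j.val % LL m : ℕ) = j.val - r := by
        have := Nat.div_add_mod' j.val (LL m)
        rw [hj2] at this
        have h2 : ((q * LL m + j.val % LL m : ℕ) : ℤ) = j.val := by rw [this]
        push_cast at h2 ⊢
        linarith
      simp only [e]
      exact h j hj1
    · intro j hj j' hj' he
      have h1 := (mem_filter.1 hj).2
      have h2 := (mem_filter.1 hj').2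
      apply Fin.ext
      rw [← Nat.div_add_mod' j.val (LL m), ← Nat.div_add_mod' j'.val (LL m), h1, h2]
      simp only at he
      rw [he]

theorem coverD_le (α : Finset (Set XA)) {r : ℕ} {δ : ℝ}
    (hr : ∀ x : XA, ∃ U ∈ α, ∀ y : XA,
      (∀ k < r, ∀ n : ℤ, |n| ≤ r → |y.1 k n - x.1 k n| ≤ δ) → y ∈ U)
    {m : ℕ} (hm : 1 / (bb m : ℝ) ≤ δ) (n : ℕ) :
    coverD (joinIter TA α n) ≤ kk m * ((n + 2 * r) / LL m + 1) * r := by
  classical
  set Q := (n + 2 * r) / LL m + 1 with hQ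
  have hN : n + 2 * r < Q * LL m := by
    rw [hQ, mul_comm _ (LL m)]; exact Nat.lt_mul_div_succ _ (LL_pos m)
  obtain ⟨β, hβ, hord, hdiam⟩ := exists_cover (m := m) (D := kk m * Q * r)
    (f := fun (j : Fin r × Fin (Q * LL m)) (z : XA) => z.1 j.1 (j.2.val - r))
    (dig := fun j => j.2.val % LL m) (fun j => continuous_coord _ _)
    (fun j z => (z.2 _).1.1 _) (fun j => Nat.mod_lt _ (LL_pos m)) fun z S hS => by
      refine le_of_le_of_eq (card_le_mul_card_image_of_maps_to (t := univ)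
        (f := fun j => j.1) (fun j _ => mem_univ _) (kk m * Q) fun k _ => ?_) (by simp)
      rw [← card_image_of_injOn (f := Prod.snd)]
      · refine row_card (r := r) (z.2 k).1 _ fun j hj => ?_
        obtain ⟨i, hi, rfl⟩ := mem_image.1 hj
        have := hS i (mem_filter.1 hi).1
        rwa [(mem_filter.1 hi).2] at this
      · intro i hi i' hi' he
        exact Prod.ext ((mem_filter.1 hi).2.trans (mem_filter.1 hi').2.symm) he
  refine le_trans (Nat.sInf_le ⟨β, hβ, fun V hV => ?_, rfl⟩) hord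
  obtain ⟨x, hx⟩ : ∃ x : XA, ∀ y ∈ V, x ∈ V := by
    rcases V.eq_empty_or_nonempty with h | ⟨x, hx⟩
    · exact ⟨⟨ee, ee_mem⟩, fun y hy => by rw [h] at hy; exact hy.elim⟩
    · exact ⟨x, fun _ _ => hx⟩
  choose U hU1 hU2 using fun k : Fin n => hr (TA^[k] x)
  refine ⟨⋂ k : Fin n, TA^[k] ⁻¹' U k, mem_image.2 ⟨U, by simp [hU1], rfl⟩, fun y hy => ?_⟩
  refine Set.mem_iInter.2 fun k => hU2 k _ fun i hi t ht => ?_
  rw [TA_iterate, TA_iterate]
  have hk := k.2
  rw [abs_le] at ht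
  have := hdiam V hV x (hx y hy) y hy (⟨i, hi⟩, ⟨(t + k.val + r).toNat, by omega⟩)
  have e : (((t + k.val + r).toNat : ℕ) : ℤ) - r = t + k.val := by omega
  simp only [e] at this
  exact this.trans hm

theorem mdim_TA : mdim TA = 0 := by
  refine le_antisymm (iSup₂_le fun α hα => ?_) zero_le
  obtain ⟨r, δ, hδ, hr⟩ := exists_window (fun U : α => (U : Set XA)) (fun U => hα.1 U U.2)
    (fun x => by obtain ⟨U, hU, hx⟩ := hα.2 x; exact ⟨⟨U, hU⟩, hx⟩)
  have hr' : ∀ x : XA, ∃ U ∈ α, ∀ y : XA,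
      (∀ k < r, ∀ n : ℤ, |n| ≤ r → |y.1 k n - x.1 k n| ≤ δ) → y ∈ U := fun x => by
    obtain ⟨U, hU⟩ := hr x; exact ⟨U, U.2, hU⟩
  refine le_of_forall_gt_imp_ge_of_dense fun ε hε => ?_
  obtain ⟨N, hN⟩ := ENNReal.exists_inv_nat_lt hε.ne'
  obtain ⟨m₀, hm₀⟩ := exists_nat_one_div_lt hδ
  set m := m₀ + 2 * (r * N) with hmdef
  have hm : 1 / (bb m : ℝ) ≤ δ := by
    refine le_trans ?_ hm₀.le
    have h1 : m₀ + 1 ≤ bb m := by have := lt_bb m; omega
    have h2 : (m₀ : ℝ) + 1 ≤ bb m := by exact_mod_cast h1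
    gcongr
  refine Filter.limsup_le_of_le (by isBoundedDefault) ?_
  filter_upwards [Filter.eventually_ge_atTop (2 * r + LL m)] with n hn
  refine le_trans ?_ hN.le
  have h1 := coverD_le α hr' hm n
  have h2 : coverD (joinIter TA α n) * N ≤ n := by
    have h3 : ((n + 2 * r) / LL m + 1) * LL m ≤ 2 * n := by
      have := Nat.div_mul_le_self (n + 2 * r) (LL m)
      nlinarith
    have h4 : 2 * (r * N) ≤ 2 ^ m := by
      have := Nat.lt_two_pow_self (n := m)
      omega
    have h5 : kk m * ((n + 2 * r) / LL m + 1) * (2 * (r * N)) ≤ 2 * n := by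
      refine le_trans (Nat.mul_le_mul_left _ h4) (le_trans (le_of_eq ?_) h3)
      nth_rewrite 3 [← kk_mul]
      ring
    have h6 := Nat.mul_le_mul_right N h1
    nlinarith
  rw [ENNReal.le_inv_iff_mul_le, ENNReal.div_eq_inv_mul, mul_assoc, ← ENNReal.div_eq_inv_mul]
  refine ENNReal.div_le_of_le_mul ?_
  rw [one_mul]
  exact_mod_cast h2

end Pool.Agent.MP_2d33ec_an.AP
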